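import Mathlib

/-!
# Block gluing of `ℤ²`-subshifts: basic definitions and the doubling inequality
-/

set_option autoImplicit false

namespace Pool.Agent.H36Glue

open Filter Topology

variable {A : Type*}

/-- The configuration `x` translated by `v`: `(tr v x)(m) = x (m + v)`. -/
def tr (v : ℤ × ℤ) (x : ℤ × ℤ → A) : ℤ × ℤ → A := fun m => x (m + v)

/-- `X` is invariant under all translations of `ℤ²`. -/
def Invariant (X : Set (ℤ × ℤ → A)) : Prop := ∀ x ∈ X, ∀ v, tr v x ∈ X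

/-- The pattern that `x` shows in the square `{0, …, n - 1}²`. -/
def pat (n : ℕ) (x : ℤ × ℤ → A) : Fin n × Fin n → A := fun i => x ((i.1 : ℤ), (i.2 : ℤ))

/-- The set `L_n(X)` of the globally valid patterns with domain `{0, …, n - 1}²`. -/
def Lang (X : Set (ℤ × ℤ → A)) (n : ℕ) : Set (Fin n × Fin n → A) := pat n '' X

/-- Any two patterns of `L_n(X)` can be glued at the horizontal distance `k`. -/
def GluesH (X : Set (ℤ × ℤ → A)) (n k : ℕ) : Prop :=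
  ∀ p ∈ Lang X n, ∀ q ∈ Lang X n, ∃ x ∈ X, pat n x = p ∧ pat n (tr (((n + k : ℕ) : ℤ), 0) x) = q

/-- Any two patterns of `L_n(X)` can be glued at the vertical distance `k`. -/
def GluesV (X : Set (ℤ × ℤ → A)) (n k : ℕ) : Prop :=
  ∀ p ∈ Lang X n, ∀ q ∈ Lang X n, ∃ x ∈ X, pat n x = p ∧ pat n (tr (0, ((n + k : ℕ) : ℤ)) x) = q

/-- The horizontal block gluing function: the least `k` such that any two patterns of `L_n(X)` can
be glued at every horizontal distance `k' ≥ k`, and `∞` if there is no such `k`. -/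
noncomputable def BH (X : Set (ℤ × ℤ → A)) (n : ℕ) : ℕ∞ :=
  sInf {k : ℕ∞ | ∃ m : ℕ, k = m ∧ ∀ k' ≥ m, GluesH X n k'}

/-- The vertical block gluing function. -/
noncomputable def BV (X : Set (ℤ × ℤ → A)) (n : ℕ) : ℕ∞ :=
  sInf {k : ℕ∞ | ∃ m : ℕ, k = m ∧ ∀ k' ≥ m, GluesV X n k'}

/-- The block gluing function. -/
noncomputable def B (X : Set (ℤ × ℤ → A)) (n : ℕ) : ℕ∞ := max (BH X n) (BV X n)

/-- The number of globally valid patterns with domain `{0, …, n - 1}²`. -/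
noncomputable def cnt (X : Set (ℤ × ℤ → A)) (n : ℕ) : ℕ := (Lang X n).ncard

lemma of_sInf_le {P : ℕ → Prop} {k : ℕ}
    (h : sInf {k : ℕ∞ | ∃ m : ℕ, k = m ∧ ∀ k' ≥ m, P k'} ≤ k) : P k := by
  have hne : {k : ℕ∞ | ∃ m : ℕ, k = m ∧ ∀ k' ≥ m, P k'}.Nonempty := by
    by_contra hc
    rw [Set.not_nonempty_iff_eq_empty] at hc
    rw [hc, sInf_empty] at h
    exact absurd h (by simp)
  obtain ⟨m, hm, hg⟩ := csInf_mem hne
  have : (m : ℕ∞) ≤ k := by rw [← hm]; exact h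
  exact hg k (by exact_mod_cast this)

lemma glues_of_le {X : Set (ℤ × ℤ → A)} {n k : ℕ} (h : B X n ≤ k) : GluesH X n k ∧ GluesV X n k :=
  ⟨of_sInf_le (P := GluesH X n) ((le_max_left _ _).trans h),
    of_sInf_le (P := GluesV X n) ((le_max_right _ _).trans h)⟩

lemma le_of_glues {X : Set (ℤ × ℤ → A)} {n k : ℕ}
    (h : ∀ k' ≥ k, GluesH X n k' ∧ GluesV X n k') : B X n ≤ k :=
  max_le (sInf_le ⟨k, rfl, fun k' hk' => (h k' hk').1⟩) (sInf_le ⟨k, rfl, fun k' hk' => (h k' hk').2⟩)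

lemma B_glues {X : Set (ℤ × ℤ → A)} {n k : ℕ} (h : B X n ≤ k) :
    ∀ k' ≥ k, GluesH X n k' ∧ GluesV X n k' := fun k' hk' =>
  glues_of_le (h.trans (by exact_mod_cast hk'))

/-- `B(n)` is finite and at most the real number `r`. -/
def BLe (X : Set (ℤ × ℤ → A)) (n : ℕ) (r : ℝ) : Prop := ∃ m : ℕ, B X n ≤ m ∧ (m : ℝ) ≤ r

lemma tr_tr (v w : ℤ × ℤ) (x : ℤ × ℤ → A) : tr v (tr w x) = tr (v + w) x := by
  funext m
  simp only [tr, add_assoc]

lemma pat_eq_iff {n : ℕ} {x y : ℤ × ℤ → A} :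
    pat n x = pat n y ↔ ∀ i j : ℤ, 0 ≤ i → i < n → 0 ≤ j → j < n → x (i, j) = y (i, j) := by
  constructor
  · intro h i j hi hi' hj hj'
    have := congrFun h (⟨i.toNat, by omega⟩, ⟨j.toNat, by omega⟩)
    simpa [pat, Int.toNat_of_nonneg hi, Int.toNat_of_nonneg hj] using this
  · intro h
    funext ⟨i, j⟩
    exact h _ _ (by positivity) (by exact_mod_cast i.2) (by positivity) (by exact_mod_cast j.2)

/-- gluing two configurations vertically -/
lemma glueV {X : Set (ℤ × ℤ → A)} {W k : ℕ} (h : GluesV X W k) {x y : ℤ × ℤ → A}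
    (hx : x ∈ X) (hy : y ∈ X) : ∃ z ∈ X, ∀ i j : ℤ, 0 ≤ i → i < W → 0 ≤ j → j < W →
      z (i, j) = x (i, j) ∧ z (i, j + (W + k)) = y (i, j) := by
  obtain ⟨z, hz, h1, h2⟩ := h _ ⟨x, hx, rfl⟩ _ ⟨y, hy, rfl⟩
  refine ⟨z, hz, fun i j hi hi' hj hj' => ⟨pat_eq_iff.1 h1 i j hi hi' hj hj', ?_⟩⟩
  have := pat_eq_iff.1 h2 i j hi hi' hj hj'
  simpa [tr] using this

/-- gluing two configurations horizontally -/
lemma glueH {X : Set (ℤ × ℤ → A)} {W k : ℕ} (h : GluesH X W k) {x y : ℤ × ℤ → A}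
    (hx : x ∈ X) (hy : y ∈ X) : ∃ z ∈ X, ∀ i j : ℤ, 0 ≤ i → i < W → 0 ≤ j → j < W →
      z (i, j) = x (i, j) ∧ z (i + (W + k), j) = y (i, j) := by
  obtain ⟨z, hz, h1, h2⟩ := h _ ⟨x, hx, rfl⟩ _ ⟨y, hy, rfl⟩
  refine ⟨z, hz, fun i j hi hi' hj hj' => ⟨pat_eq_iff.1 h1 i j hi hi' hj hj', ?_⟩⟩
  have := pat_eq_iff.1 h2 i j hi hi' hj hj'
  simpa [tr] using this

/-- two blocks above each other in a column of height `W = 2 n + k` -/
lemma column {X : Set (ℤ × ℤ → A)} (hX : Invariant X) {n W k : ℕ} (hW : 2 * n + k = W)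
    (h : GluesV X W k) {x y : ℤ × ℤ → A} (hx : x ∈ X) (hy : y ∈ X) :
    ∃ z ∈ X, ∀ i j : ℤ, 0 ≤ i → i < W → 0 ≤ j → j < n →
      z (i, j) = x (i, j) ∧ z (i, j + (n + k)) = y (i, j) := by
  obtain ⟨z, hz, h1⟩ := glueV h (hX x hx (0, -((n + k : ℕ) : ℤ))) hy
  refine ⟨tr (0, ((n + k : ℕ) : ℤ)) z, hX z hz _, fun i j hi hi' hj hj' => ⟨?_, ?_⟩⟩
  · have := (h1 i (j + (n + k)) hi hi' (by positivity) (by omega)).1
    simp only [tr, Prod.mk_add_mk, add_zero] at this ⊢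
    rw [show j + ((n + k : ℕ) : ℤ) = j + (n + k) by push_cast; ring, this]
    congr 2
    push_cast; ring
  · have := (h1 i j hi hi' hj (by omega)).2
    simp only [tr, Prod.mk_add_mk, add_zero] at this ⊢
    rw [← this]
    congr 2
    rw [← hW]; push_cast; ring

/-- two blocks beside each other in a row of width `W = 2 n + k` -/
lemma row {X : Set (ℤ × ℤ → A)} (hX : Invariant X) {n W k : ℕ} (hW : 2 * n + k = W)
    (h : GluesH X W k) {x y : ℤ × ℤ → A} (hx : x ∈ X) (hy : y ∈ X) :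
    ∃ z ∈ X, ∀ i j : ℤ, 0 ≤ i → i < n → 0 ≤ j → j < W →
      z (i, j) = x (i, j) ∧ z (i + (n + k), j) = y (i, j) := by
  obtain ⟨z, hz, h1⟩ := glueH h (hX x hx (-((n + k : ℕ) : ℤ), 0)) hy
  refine ⟨tr (((n + k : ℕ) : ℤ), 0) z, hX z hz _, fun i j hi hi' hj hj' => ⟨?_, ?_⟩⟩
  · have := (h1 (i + (n + k)) j (by positivity) (by omega) hj hj').1
    simp only [tr, Prod.mk_add_mk, add_zero] at this ⊢
    rw [show i + ((n + k : ℕ) : ℤ) = i + (n + k) by push_cast; ring, this]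
    congr 2
    push_cast; ring
  · have := (h1 i j hi (by omega) hj hj').2
    simp only [tr, Prod.mk_add_mk, add_zero] at this ⊢
    rw [← this]
    congr 2
    rw [← hW]; push_cast; ring

/-- four blocks in the corners of a square of side `W = 2 n + k` -/
lemma corners {X : Set (ℤ × ℤ → A)} (hX : Invariant X) {n W k : ℕ} (hW : 2 * n + k = W)
    (h : B X W ≤ k) {x y x' y' : ℤ × ℤ → A} (hx : x ∈ X) (hy : y ∈ X) (hx' : x' ∈ X)
    (hy' : y' ∈ X) : ∃ z ∈ X, ∀ i j : ℤ, 0 ≤ i → i < n → 0 ≤ j → j < n →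
      z (i, j) = x (i, j) ∧ z (i, j + (n + k)) = y (i, j) ∧
      z (i + (n + k), j) = x' (i, j) ∧ z (i + (n + k), j + (n + k)) = y' (i, j) := by
  obtain ⟨hH, hV⟩ := glues_of_le h
  obtain ⟨u, hu, hu1⟩ := column hX hW hV hx hy
  obtain ⟨v, hv, hv1⟩ := column hX hW hV hx' hy'
  obtain ⟨z, hz, hz1⟩ := row hX hW hH hu hv
  refine ⟨z, hz, fun i j hi hi' hj hj' => ?_⟩
  have a1 := hu1 i j hi (by omega) hj hj'
  have a2 := hv1 i j hi (by omega) hj hj'
  have b1 := hz1 i j hi hi' hj (by omega)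
  have b2 := hz1 i (j + (n + k)) hi hi' (by positivity) (by omega)
  exact ⟨b1.1.trans a1.1, b2.1.trans a1.2, b1.2.trans a2.1, b2.2.trans a2.2⟩

section count
variable [Finite A]

lemma lang_finite (X : Set (ℤ × ℤ → A)) (n : ℕ) : (Lang X n).Finite := Set.toFinite _

/-- The doubling inequality. -/
lemma cnt_pow_le {X : Set (ℤ × ℤ → A)} (hX : Invariant X) {n W k : ℕ} (hW : 2 * n + k = W)
    (h : B X W ≤ k) : cnt X n ^ 4 ≤ cnt X W := by
  classical
  let e : Fin n → Fin W := fun i => ⟨i, by omega⟩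
  let f : Fin n → Fin W := fun i => ⟨i + (n + k), by omega⟩
  let F : (Fin W × Fin W → A) → (Fin n × Fin n → A) × (Fin n × Fin n → A) ×
      (Fin n × Fin n → A) × (Fin n × Fin n → A) := fun p =>
    (fun i => p (e i.1, e i.2), fun i => p (e i.1, f i.2), fun i => p (f i.1, e i.2),
      fun i => p (f i.1, f i.2))
  have key : (Lang X n) ×ˢ ((Lang X n) ×ˢ ((Lang X n) ×ˢ (Lang X n))) ⊆ F '' (Lang X W) := by
    rintro ⟨p, q, r, s⟩ ⟨⟨x, hx, rfl⟩, ⟨y, hy, rfl⟩, ⟨x', hx', rfl⟩, ⟨y', hy', rfl⟩⟩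
    obtain ⟨z, hz, hz1⟩ := corners hX hW h hx hy hx' hy'
    refine ⟨pat W z, ⟨z, hz, rfl⟩, ?_⟩
    have hz2 := fun i : Fin n × Fin n => hz1 (i.1 : ℤ) (i.2 : ℤ) (by positivity)
      (by exact_mod_cast i.1.2) (by positivity) (by exact_mod_cast i.2.2)
    simp only [F, Prod.mk.injEq]
    refine ⟨?_, ?_, ?_, ?_⟩
    · funext i; simpa [pat, e, f] using (hz2 i).1
    · funext i; simpa [pat, e, f] using (hz2 i).2.1
    · funext i; simpa [pat, e, f] using (hz2 i).2.2.1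
    · funext i; simpa [pat, e, f] using (hz2 i).2.2.2
  have h1 := Set.ncard_le_ncard key (Set.toFinite _)
  have h2 := Set.ncard_image_le (f := F) (lang_finite X W)
  rw [Set.ncard_prod, Set.ncard_prod, Set.ncard_prod] at h1
  calc cnt X n ^ 4 = cnt X n * (cnt X n * (cnt X n * cnt X n)) := by ring
    _ ≤ _ := h1.trans h2

lemma cnt_mono (X : Set (ℤ × ℤ → A)) : Monotone (cnt X) := by
  intro n m hnm
  let e : Fin n → Fin m := fun i => ⟨i, by omega⟩
  have key : Lang X n = (fun p i => p (e i.1, e i.2)) '' (Lang X m) := by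
    unfold Lang
    rw [← Set.image_comp]
    rfl
  unfold cnt
  rw [key]
  exact Set.ncard_image_le (lang_finite X m)

lemma two_le_cnt {X : Set (ℤ × ℤ → A)} (hX : Invariant X) (h2 : X.Nontrivial) {n : ℕ}
    (hn : 1 ≤ n) : 2 ≤ cnt X n := by
  refine le_trans ?_ (cnt_mono X hn)
  obtain ⟨x, hx, y, hy, hxy⟩ := h2
  obtain ⟨m, hm⟩ := Function.ne_iff.1 hxy
  have h1 : pat 1 (tr m x) ∈ Lang X 1 := ⟨_, hX x hx m, rfl⟩
  have h2 : pat 1 (tr m y) ∈ Lang X 1 := ⟨_, hX y hy m, rfl⟩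
  have h3 : pat 1 (tr m x) ≠ pat 1 (tr m y) := by
    intro h
    apply hm
    have := congrFun h (0, 0)
    have e0 : ((0 : ℤ), (0 : ℤ)) + m = m := by ext <;> simp
    simpa [pat, tr, e0] using this
  exact (Set.one_lt_ncard (lang_finite X 1)).2 ⟨_, h1, _, h2, h3⟩

lemma cnt_le (X : Set (ℤ × ℤ → A)) (n : ℕ) : cnt X n ≤ Nat.card A ^ (n ^ 2) := by
  classical
  have h1 := Set.ncard_le_ncard (Set.subset_univ (Lang X n)) (Set.toFinite _)
  rw [Set.ncard_univ, Nat.card_fun] at h1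
  have h2 : Nat.card (Fin n × Fin n) = n ^ 2 := by simp [sq]
  rw [h2] at h1
  exact h1

end count

end Pool.Agent.H36Glue
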