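import Pool.Agent.H36Glue.Exch

/-!
# Subshifts of finite type in which every pattern has positive density
-/

set_option autoImplicit false

namespace Pool.Agent.H36Glue

open Filter Topology MeasureTheory

variable {A : Type*}

/-- The pattern `u` has positive density in `X`: for some `δ > 0` and all large `N` there is an
`x ∈ X` in which `u` occurs at at least `δ N²` positions of `{0, …, N - 1}²`. -/
def Dens (X : Set (ℤ × ℤ → A)) {n : ℕ} (u : Fin n × Fin n → A) : Prop :=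
  ∃ δ : ℝ, 0 < δ ∧ ∀ᶠ N : ℕ in atTop, ∃ x ∈ X, δ * (N : ℝ) ^ 2 ≤ occ u x N

/-- `x` is uniformly recurrent: each of its patterns occurs in every large square of `x`. -/
def UR (x : ℤ × ℤ → A) : Prop := ∀ (n : ℕ) (v : ℤ × ℤ), ∃ R : ℕ, ∀ z : ℤ × ℤ, ∃ s t : Fin R,
  pat n (tr (z + ((s : ℤ), (t : ℤ))) x) = pat n (tr v x)

/-- positive entropy from the density of all patterns of a subset with small block gluing function -/
theorem pos_of_dens [Finite A] {w : ℕ} {F : Set (Fin w × Fin w → A)} {S : Set (ℤ × ℤ → A)}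
    (hS : S ⊆ SFT w F) (hinv : Invariant S) (h2 : S.Nontrivial)
    {c : ℝ} (hc : c < 1) (hB : ∀ᶠ n : ℕ in atTop, BLe S n (c * n))
    (hD : ∀ n : ℕ, ∀ u ∈ Lang S n, Dens (SFT w F) u) :
    ∃ c' : ℝ, 0 < c' ∧ ∀ᶠ n : ℕ in atTop, Real.exp (c' * n ^ 2) ≤ cnt (SFT w F) n := by
  have hB' : ∀ᶠ n : ℕ in atTop, BLe S n (max c 0 * n) := by
    filter_upwards [hB] with n hn
    obtain ⟨m, h1, h3⟩ := hn
    refine ⟨m, h1, h3.trans ?_⟩
    gcongr
    exact le_max_left _ _
  obtain ⟨n, hn, hn2⟩ := superexp hinv h2 (le_max_right c 0)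
    (max_lt hc one_pos) hB' (4 * w * Real.log (Nat.card A))
  obtain ⟨p, hp, q, hq, hpq, hfr⟩ := exists_exch h2.nonempty hn2
  obtain ⟨δ, hδ, hev⟩ := hD n _ ⟨p, hp, rfl⟩
  obtain ⟨N0, hN0⟩ := eventually_atTop.1 hev
  have hn' : (0 : ℝ) < n := by exact_mod_cast hn
  refine ⟨Real.log 2 * (δ / (4 * n ^ 2)), by positivity, ?_⟩
  filter_upwards [eventually_ge_atTop (N0 + 2 * n)] with m hm
  obtain ⟨x, hx, hocc⟩ := hN0 (m - n) (by omega)
  have h3 := two_pow_density (N := m - n) (r := δ / n ^ 2 * ((m - n : ℕ) : ℝ) ^ 2) hn hx (hS hq)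
    hpq hfr
    (by
      refine le_trans (le_of_eq ?_) hocc
      field_simp)
  rw [Nat.sub_add_cancel (by omega)] at h3
  refine le_trans ?_ h3
  rw [Real.rpow_def_of_pos (by norm_num)]
  apply Real.exp_le_exp.2
  rw [mul_assoc]
  refine mul_le_mul_of_nonneg_left ?_ (Real.log_nonneg (by norm_num))
  have h4 : (m : ℝ) ≤ 2 * ((m - n : ℕ) : ℝ) := by
    have : m ≤ 2 * (m - n) := by omega
    exact_mod_cast this
  have h5 : (m : ℝ) ^ 2 ≤ 4 * ((m - n : ℕ) : ℝ) ^ 2 := by
    calc (m : ℝ) ^ 2 ≤ (2 * ((m - n : ℕ) : ℝ)) ^ 2 := by gcongr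
      _ = _ := by ring
  calc δ / (4 * (n : ℝ) ^ 2) * (m : ℝ) ^ 2 ≤
        δ / (4 * (n : ℝ) ^ 2) * (4 * ((m - n : ℕ) : ℝ) ^ 2) := by gcongr
    _ = δ / n ^ 2 * ((m - n : ℕ) : ℝ) ^ 2 := by field_simp

lemma dens_of_UR {X : Set (ℤ × ℤ → A)} {x : ℤ × ℤ → A} (hx : x ∈ X) (h : UR x) (n : ℕ) :
    Dens X (pat n x) := by
  classical
  obtain ⟨R, hR⟩ := h n 0
  have h0 : tr (0 : ℤ × ℤ) x = x := by
    funext m
    simp [tr]
  rw [h0] at hR
  have hR0 : 0 < R := by
    obtain ⟨s, _, _⟩ := hR 0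
    exact s.pos
  choose s t hst using hR
  refine ⟨1 / (4 * R ^ 2), by positivity, ?_⟩
  filter_upwards [eventually_ge_atTop R] with N hN
  refine ⟨x, hx, ?_⟩
  set k := N / R with hk
  have hk1 : 1 ≤ k := (Nat.one_le_div_iff hR0).2 hN
  have hkN : R * k ≤ N := Nat.mul_div_le N R
  have hkN2 : N < R * (k + 1) := by
    have := Nat.lt_mul_div_succ N hR0
    simpa using this
  let z : Fin k × Fin k → ℤ × ℤ := fun g => ((R * g.1 : ℕ), (R * g.2 : ℕ))
  have hlt : ∀ (g : Fin k) (a : Fin R), R * (g : ℕ) + a < N := by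
    intro g a
    have h1 := g.2
    have h3 := a.2
    have h4 : R * (g : ℕ) + R ≤ R * k := by
      calc R * (g : ℕ) + R = R * (g + 1) := by ring
        _ ≤ R * k := Nat.mul_le_mul_left R h1
    omega
  let f : Fin k × Fin k → Fin N × Fin N := fun g =>
    (⟨R * g.1 + s (z g), hlt _ _⟩, ⟨R * g.2 + t (z g), hlt _ _⟩)
  have hf : Function.Injective f := by
    intro g g' hgg
    have e1 : R * (g.1 : ℕ) + s (z g) = R * (g'.1 : ℕ) + s (z g') :=
      congrArg (fun v : Fin N × Fin N => (v.1 : ℕ)) hgg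
    have e2 : R * (g.2 : ℕ) + t (z g) = R * (g'.2 : ℕ) + t (z g') :=
      congrArg (fun v : Fin N × Fin N => (v.2 : ℕ)) hgg
    have d1 := congrArg (· / R) e1
    have d2 := congrArg (· / R) e2
    simp only [Nat.mul_add_div hR0, Nat.div_eq_of_lt (s _).2, Nat.div_eq_of_lt (t _).2,
      add_zero] at d1 d2
    ext
    · exact d1
    · exact d2
  have hsub : Set.range f ⊆
      {v : Fin N × Fin N | pat n (tr ((v.1 : ℤ), (v.2 : ℤ)) x) = pat n x} := by
    rintro _ ⟨g, rfl⟩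
    have := hst (z g)
    simp only [Set.mem_ofPred_eq, f]
    rw [← this]
    congr 2
  have h1 : k ^ 2 ≤ occ (pat n x) x N := by
    have h3 := Set.ncard_le_ncard hsub (Set.toFinite _)
    rw [← Set.image_univ, Set.ncard_image_of_injective _ hf, Set.ncard_univ] at h3
    have e : Nat.card (Fin k × Fin k) = k ^ 2 := by simp [sq]
    rw [e] at h3
    exact h3
  have h3 : (N : ℝ) ≤ 2 * R * k := by
    have : N ≤ 2 * R * k := by nlinarith
    exact_mod_cast this
  have hR' : (0 : ℝ) < R := by exact_mod_cast hR0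
  calc 1 / (4 * (R : ℝ) ^ 2) * (N : ℝ) ^ 2 ≤ 1 / (4 * (R : ℝ) ^ 2) * (2 * R * k) ^ 2 := by gcongr
    _ = ((k ^ 2 : ℕ) : ℝ) := by push_cast; field_simp; ring
    _ ≤ _ := by exact_mod_cast h1

section top
variable [TopologicalSpace A] [DiscreteTopology A]

omit [DiscreteTopology A] in
lemma continuous_pat (n : ℕ) (t : ℤ × ℤ) :
    Continuous fun x : ℤ × ℤ → A => pat n (tr t x) :=
  continuous_pi fun _ => continuous_apply _

lemma isOpen_cyl (n : ℕ) (t : ℤ × ℤ) (u : Fin n × Fin n → A) :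
    IsOpen {x : ℤ × ℤ → A | pat n (tr t x) = u} :=
  (isOpen_discrete ({u} : Set (Fin n × Fin n → A))).preimage (continuous_pat n t)

lemma isClosed_SFT (w : ℕ) (F : Set (Fin w × Fin w → A)) : IsClosed (SFT w F) := by
  have : SFT w F = ⋂ v, (fun x : ℤ × ℤ → A => pat w (tr v x)) ⁻¹' F := by
    ext x
    simp [SFT]
  rw [this]
  exact isClosed_iInter fun v => (isClosed_discrete F).preimage (continuous_pat w v)

omit [TopologicalSpace A] [DiscreteTopology A] in
lemma tr_zero (x : ℤ × ℤ → A) : tr (0 : ℤ × ℤ) x = x := by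
  funext m
  simp [tr]

lemma exists_pat_of_closure {Y : Set (ℤ × ℤ → A)} {x : ℤ × ℤ → A} (hx : x ∈ closure Y) (n : ℕ) :
    ∃ y ∈ Y, pat n y = pat n x := by
  obtain ⟨y, hy1, hy2⟩ := mem_closure_iff.1 hx _ (isOpen_cyl n 0 (pat n x))
    (by rw [Set.mem_ofPred_eq, tr_zero])
  rw [Set.mem_ofPred_eq, tr_zero] at hy1
  exact ⟨y, hy2, hy1⟩

/-- all points of a minimal subshift are uniformly recurrent -/
lemma UR_of_minimal [Finite A] {X : Set (ℤ × ℤ → A)} (hX : Invariant X) (hcl : IsClosed X)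
    (hmin : ∀ x ∈ X, X ⊆ closure (Set.range fun v => tr v x)) {x : ℤ × ℤ → A} (hx : x ∈ X) :
    UR x := by
  intro n v
  have hcov : X ⊆ ⋃ t : ℤ × ℤ, {y : ℤ × ℤ → A | pat n (tr t y) = pat n (tr v x)} := by
    intro y hy
    obtain ⟨_, ⟨t, rfl⟩, ht⟩ := exists_pat_of_closure (hmin y hy (hX x hx v)) n
    exact Set.mem_iUnion.2 ⟨t, ht⟩
  obtain ⟨T, hT⟩ := hcl.isCompact.elim_finite_subcover _ (fun t => isOpen_cyl n t _) hcov
  set K : ℕ := T.sup (fun t => max t.1.natAbs t.2.natAbs) with hK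
  refine ⟨2 * K + 1, fun z => ?_⟩
  obtain ⟨t, ht⟩ := Set.mem_iUnion.1 (hT (hX x hx (z + ((K : ℤ), (K : ℤ)))))
  obtain ⟨htT, ht2⟩ := Set.mem_iUnion.1 ht
  have h1 : max t.1.natAbs t.2.natAbs ≤ K := Finset.le_sup (f := fun t : ℤ × ℤ =>
    max t.1.natAbs t.2.natAbs) htT
  have h2 : t.1.natAbs ≤ K := (le_max_left _ _).trans h1
  have h3 : t.2.natAbs ≤ K := (le_max_right _ _).trans h1
  refine ⟨⟨(t.1 + K).toNat, by omega⟩, ⟨(t.2 + K).toNat, by omega⟩, ?_⟩
  rw [Set.mem_ofPred_eq, tr_tr] at ht2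
  rw [← ht2]
  congr 2
  ext
  · simp only [Prod.fst_add]
    rw [Int.toNat_of_nonneg (by omega)]
    ring
  · simp only [Prod.snd_add]
    rw [Int.toNat_of_nonneg (by omega)]
    ring

end top

section measure
variable [MeasurableSpace A] [MeasurableSingletonClass A]

lemma measurableSet_cyl (n : ℕ) (u : Fin n × Fin n → A) :
    MeasurableSet {x : ℤ × ℤ → A | pat n x = u} := by
  have : {x : ℤ × ℤ → A | pat n x = u} =
      ⋂ i : Fin n × Fin n, (fun x : ℤ × ℤ → A => x ((i.1 : ℤ), (i.2 : ℤ))) ⁻¹' {u i} := by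
    ext x
    simp only [Set.mem_ofPred_eq, Set.mem_iInter, Set.mem_preimage, Set.mem_singleton_iff]
    exact funext_iff
  rw [this]
  exact MeasurableSet.iInter fun i => (measurable_pi_apply _) (measurableSet_singleton _)

open scoped ENNReal in
/-- a pattern of positive measure has positive density -/
lemma dens_of_measure {X : Set (ℤ × ℤ → A)} (μ : Measure (ℤ × ℤ → A)) [IsProbabilityMeasure μ]
    (hμX : ∀ᵐ x ∂μ, x ∈ X) (hinv : ∀ v, MeasurePreserving (tr v) μ μ) {n : ℕ}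
    {u : Fin n × Fin n → A} (hu : 0 < μ {x | pat n x = u}) : Dens X u := by
  classical
  set C : Set (ℤ × ℤ → A) := {x | pat n x = u} with hC
  have hCm : MeasurableSet C := measurableSet_cyl n u
  set a : ℝ := (μ C).toReal with ha
  have ha0 : 0 < a := ENNReal.toReal_pos hu.ne' (measure_ne_top _ _)
  have haC : μ C = ENNReal.ofReal a := (ENNReal.ofReal_toReal (measure_ne_top _ _)).symm
  refine ⟨a / 2, by positivity, ?_⟩
  filter_upwards [eventually_ge_atTop 1] with N hN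
  by_contra hc
  push Not at hc
  have hocc : ∀ x, (occ u x N : ℝ≥0∞) =
      ∑ v : Fin N × Fin N, (tr ((v.1 : ℤ), (v.2 : ℤ)) ⁻¹' C).indicator 1 x := by
    intro x
    have e1 : occ u x N = (Finset.univ.filter fun v : Fin N × Fin N =>
        pat n (tr ((v.1 : ℤ), (v.2 : ℤ)) x) = u).card := by
      unfold occ
      rw [Set.ncard_eq_toFinset_card']
      congr 1
      ext v
      simp
    rw [e1, Finset.card_filter]
    push_cast
    refine Finset.sum_congr rfl fun v _ => ?_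
    simp [Set.indicator, hC]
  have h1 : ∫⁻ x, (occ u x N : ℝ≥0∞) ∂μ = ((N : ℝ≥0∞) ^ 2) * μ C := by
    simp_rw [hocc]
    rw [lintegral_finsetSum]
    · calc _ = ∑ _v : Fin N × Fin N, μ C := by
            refine Finset.sum_congr rfl fun v _ => ?_
            rw [lintegral_indicator_one ((hinv _).measurable hCm),
              (hinv _).measure_preimage hCm.nullMeasurableSet]
        _ = _ := by simp [sq]
    · intro v _
      exact measurable_one.indicator ((hinv _).measurable hCm)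
  have h2 : ∫⁻ x, (occ u x N : ℝ≥0∞) ∂μ ≤ ENNReal.ofReal (a / 2 * (N : ℝ) ^ 2) := by
    calc ∫⁻ x, (occ u x N : ℝ≥0∞) ∂μ ≤ ∫⁻ _, ENNReal.ofReal (a / 2 * (N : ℝ) ^ 2) ∂μ := by
          refine lintegral_mono_ae ?_
          filter_upwards [hμX] with x hx
          have := (hc x hx).le
          rw [← ENNReal.ofReal_natCast]
          exact ENNReal.ofReal_le_ofReal this
      _ = _ := by simp
  rw [h1, haC, ← ENNReal.ofReal_natCast N, ← ENNReal.ofReal_pow (by positivity),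
    ← ENNReal.ofReal_mul (by positivity), ENNReal.ofReal_le_ofReal_iff (by positivity)] at h2
  have hN' : (0 : ℝ) < N := by exact_mod_cast hN
  have : 0 < a * (N : ℝ) ^ 2 := by positivity
  linarith

end measure

end Pool.Agent.H36Glue
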