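import Pool.Agent.H36Glue.Growth

/-!
# Block gluing of `ℤ²`-subshifts: entropy dimension two
-/

set_option autoImplicit false

namespace Pool.Agent.H36Glue

open Filter Topology

variable {A : Type*}

section count
variable [Finite A]

/-- one doubling step with the factor `2 + η` -/
lemma step_eta {X : Set (ℤ × ℤ → A)} (hX : Invariant X) {η : ℝ} (hη : 0 < η) (hη1 : η ≤ 1)
    (ho : ∀ δ : ℝ, 0 < δ → ∀ᶠ n : ℕ in atTop, BLe X n (δ * n)) :
    ∀ᶠ n : ℕ in atTop, cnt X n ^ 4 ≤ cnt X ⌈(2 + η) * n⌉₊ := by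
  obtain ⟨N, hN⟩ := eventually_atTop.1 (ho (η / 4) (by positivity))
  filter_upwards [eventually_ge_atTop (max N 1)] with n hn
  have hn1 : (1 : ℝ) ≤ n := by exact_mod_cast (le_max_right _ _).trans hn
  set W := ⌈(2 + η) * n⌉₊ with hW
  have h1 : (2 + η) * n ≤ W := Nat.le_ceil _
  have h2 : (W : ℝ) < (2 + η) * n + 1 := Nat.ceil_lt_add_one (by positivity)
  have h3 : 2 * n ≤ W := by
    have : (2 * n : ℝ) ≤ W := by nlinarith
    exact_mod_cast this
  obtain ⟨m, hm1, hm2⟩ := hN W (by omega)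
  have h4 : m ≤ W - 2 * n := by
    have : (m : ℝ) ≤ ((W - 2 * n : ℕ) : ℝ) := by
      rw [Nat.cast_sub h3]
      push_cast
      have h5 : (W : ℝ) ≤ 4 * n := by nlinarith
      have h6 : η / 4 * W ≤ η * n := by nlinarith
      nlinarith
    exact_mod_cast this
  exact cnt_pow_le hX (k := W - 2 * n) (by omega) (hm1.trans (by exact_mod_cast h4))

/-- the lower bound for the growth -/
lemma loglog_lower {X : Set (ℤ × ℤ → A)} (hX : Invariant X) (h2 : X.Nontrivial) {η : ℝ}
    (hη : 0 < η) (hη1 : η ≤ 1)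
    (ho : ∀ δ : ℝ, 0 < δ → ∀ᶠ n : ℕ in atTop, BLe X n (δ * n)) :
    ∃ C : ℝ, ∀ᶠ n : ℕ in atTop, Real.log 4 / Real.log (2 + 2 * η) * Real.log n - C ≤
      Real.log (Real.log (cnt X n)) := by
  obtain ⟨N', hN'⟩ := eventually_atTop.1 (step_eta hX hη hη1 ho)
  obtain ⟨N'', hN''⟩ := exists_nat_ge (1 / η)
  set N := max (max N' N'') 1 with hNdef
  have hN1 : 1 ≤ N := le_max_right _ _
  have hNη : 1 ≤ η * N := by
    have : (1 / η : ℝ) ≤ N := hN''.trans (by exact_mod_cast (le_max_right N' N'').trans (le_max_left _ _))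
    rw [div_le_iff₀ hη] at this
    linarith
  obtain ⟨u, u0, us⟩ : ∃ u : ℕ → ℕ, u 0 = N ∧ ∀ i, u (i + 1) = ⌈(2 + η) * u i⌉₊ :=
    ⟨fun i => Nat.rec (motive := fun _ => ℕ) N (fun _ v => ⌈(2 + η) * v⌉₊) i, rfl, fun _ => rfl⟩
  have hmono : ∀ i, N ≤ u i := by
    intro i
    induction i with
    | zero => rw [u0]
    | succ i ih =>
      rw [us]
      have : (u i : ℝ) ≤ (2 + η) * u i := by
        have : (0 : ℝ) ≤ u i := by positivity
        nlinarith
      have := Nat.ceil_mono this
      rw [Nat.ceil_natCast] at this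
      omega
  have hub : ∀ i, (u i : ℝ) ≤ (2 + 2 * η) ^ i * N := by
    intro i
    induction i with
    | zero => simp [u0]
    | succ i ih =>
      rw [us]
      have h3 : (⌈(2 + η) * u i⌉₊ : ℝ) < (2 + η) * u i + 1 := Nat.ceil_lt_add_one (by positivity)
      have h4 : (1 : ℝ) ≤ η * u i := hNη.trans (by
        have : (N : ℝ) ≤ u i := by exact_mod_cast hmono i
        nlinarith)
      calc (⌈(2 + η) * u i⌉₊ : ℝ) ≤ (2 + 2 * η) * u i := by linarith
        _ ≤ (2 + 2 * η) * ((2 + 2 * η) ^ i * N) := by gcongr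
        _ = (2 + 2 * η) ^ (i + 1) * N := by ring
  have hpow := pow_le_cnt_seq (X := X) (u := u)
    (by rw [u0]; exact two_le_cnt hX h2 hN1)
    (fun i => by rw [us]; exact hN' _ ((le_max_left N' N'').trans ((le_max_left _ _).trans (hmono i))))
  have hl : 0 < Real.log (2 + 2 * η) := Real.log_pos (by linarith)
  have hl4 : 0 < Real.log 4 := Real.log_pos (by norm_num)
  have hl2 : 0 < Real.log 2 := Real.log_pos (by norm_num)
  set α := Real.log 4 / Real.log (2 + 2 * η) with hα
  have hα0 : 0 < α := by positivity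
  refine ⟨α * Real.log N + Real.log 4 - Real.log (Real.log 2), ?_⟩
  filter_upwards [eventually_ge_atTop N] with n hn
  have hn0 : (0 : ℝ) < n := by
    have : 0 < n := by omega
    exact_mod_cast this
  have hNpos : (0 : ℝ) < N := by
    have : 0 < N := by omega
    exact_mod_cast this
  -- choose `i`
  obtain ⟨i, hi1, hi2⟩ : ∃ i : ℕ, (2 + 2 * η) ^ i * N ≤ n ∧ (n : ℝ) < (2 + 2 * η) ^ (i + 1) * N := by
    have h5 : (1 : ℝ) ≤ n / N := by
      rw [le_div_iff₀ hNpos, one_mul]
      exact_mod_cast hn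
    obtain ⟨i, h6, h7⟩ := exists_nat_pow_near h5 (by linarith : (1 : ℝ) < 2 + 2 * η)
    refine ⟨i, ?_, ?_⟩
    · rwa [le_div_iff₀ hNpos] at h6
    · rwa [div_lt_iff₀ hNpos] at h7
  have h3 : (2 : ℝ) ^ 4 ^ i ≤ cnt X n := by
    have h4 : u i ≤ n := by
      have : (u i : ℝ) ≤ n := (hub i).trans hi1
      exact_mod_cast this
    exact_mod_cast (hpow i).trans (cnt_mono X h4)
  have h5 : 4 ^ i * Real.log 2 ≤ Real.log (cnt X n) := by
    have := Real.log_le_log (by positivity) h3
    rw [Real.log_pow] at this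
    exact_mod_cast this
  have h6 : i * Real.log 4 + Real.log (Real.log 2) ≤ Real.log (Real.log (cnt X n)) := by
    have := Real.log_le_log (by positivity) h5
    rw [Real.log_mul (by positivity) hl2.ne', Real.log_pow] at this
    exact_mod_cast this
  have h7 : Real.log n ≤ (i + 1) * Real.log (2 + 2 * η) + Real.log N := by
    have := Real.log_le_log hn0 hi2.le
    rw [Real.log_mul (by positivity) hNpos.ne', Real.log_pow] at this
    exact_mod_cast this
  have h8 : α * Real.log n ≤ (i + 1) * Real.log 4 + α * Real.log N := by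
    have h9 := mul_le_mul_of_nonneg_left h7 hα0.le
    have h10 : α * Real.log (2 + 2 * η) = Real.log 4 := by
      rw [hα, div_mul_cancel₀ _ hl.ne']
    calc α * Real.log n ≤ α * ((i + 1) * Real.log (2 + 2 * η) + Real.log N) := h9
      _ = (i + 1) * (α * Real.log (2 + 2 * η)) + α * Real.log N := by ring
      _ = _ := by rw [h10]
  linarith

/-- the trivial upper bound for the growth -/
lemma loglog_upper {X : Set (ℤ × ℤ → A)} (hX : Invariant X) (h2 : X.Nontrivial) :
    ∃ C : ℝ, ∀ᶠ n : ℕ in atTop, Real.log (Real.log (cnt X n)) ≤ 2 * Real.log n + C := by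
  have hA : 2 ≤ Nat.card A := by
    have h3 := (two_le_cnt hX h2 le_rfl).trans (cnt_le X 1)
    simpa using h3
  have hA1 : (1 : ℝ) < Nat.card A := by exact_mod_cast hA
  refine ⟨Real.log (Real.log (Nat.card A)), ?_⟩
  filter_upwards [eventually_ge_atTop 1] with n hn
  have hn0 : (0 : ℝ) < n := by exact_mod_cast hn
  have h3 : (cnt X n : ℝ) ≤ (Nat.card A : ℝ) ^ (n ^ 2) := by exact_mod_cast cnt_le X n
  have h4 : (2 : ℝ) ≤ cnt X n := by exact_mod_cast two_le_cnt hX h2 hn
  have h5 : Real.log (cnt X n) ≤ n ^ 2 * Real.log (Nat.card A) := by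
    have := Real.log_le_log (by linarith) h3
    rw [Real.log_pow] at this
    exact_mod_cast this
  have h6 : 0 < Real.log (cnt X n) := Real.log_pos (by linarith)
  have h7 := Real.log_le_log h6 h5
  rw [Real.log_mul (by positivity) (Real.log_pos hA1).ne', Real.log_pow] at h7
  exact_mod_cast h7

/-- **Entropy dimension two.** -/
theorem dim_two {X : Set (ℤ × ℤ → A)} (hX : Invariant X) (h2 : X.Nontrivial)
    (ho : ∀ δ : ℝ, 0 < δ → ∀ᶠ n : ℕ in atTop, BLe X n (δ * n)) :
    Tendsto (fun n : ℕ => Real.log (Real.log (cnt X n)) / Real.log n) atTop (𝓝 2) := by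
  have hlog : Tendsto (fun n : ℕ => Real.log n) atTop atTop :=
    Real.tendsto_log_atTop.comp tendsto_natCast_atTop_atTop
  rw [tendsto_order]
  constructor
  · intro s hs
    -- choose `η`
    have hcont : Tendsto (fun η : ℝ => Real.log 4 / Real.log (2 + 2 * η)) (𝓝[>] 0) (𝓝 2) := by
      have h3 : ContinuousAt (fun η : ℝ => Real.log 4 / Real.log (2 + 2 * η)) 0 := by
        refine ContinuousAt.div continuousAt_const ?_ ?_
        · refine ContinuousAt.log (by fun_prop) (by norm_num)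
        · have : 0 < Real.log 2 := Real.log_pos (by norm_num)
          simpa using this.ne'
      have h4 : Real.log 4 / Real.log (2 + 2 * 0) = 2 := by
        rw [show (4 : ℝ) = 2 ^ 2 by norm_num, Real.log_pow]
        have : Real.log 2 ≠ 0 := (Real.log_pos (by norm_num)).ne'
        simp only [mul_zero, add_zero]
        field_simp
        norm_num
      have h5 := h3.tendsto
      rw [h4] at h5
      exact h5.mono_left nhdsWithin_le_nhds
    have h6 : ∀ᶠ η : ℝ in 𝓝[>] 0, s < Real.log 4 / Real.log (2 + 2 * η) :=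
      hcont.eventually_const_lt hs
    have h7 : ∀ᶠ η : ℝ in 𝓝[>] 0, η ∈ Set.Ioc (0 : ℝ) 1 := Ioc_mem_nhdsGT (by norm_num)
    obtain ⟨η, hη, hη0, hη1⟩ := (h6.and h7).exists
    obtain ⟨C, hC⟩ := loglog_lower hX h2 hη0 hη1 ho
    set α := Real.log 4 / Real.log (2 + 2 * η) with hα
    have h8 : ∀ᶠ n : ℕ in atTop, C / (α - s) < Real.log n := hlog.eventually_gt_atTop _
    filter_upwards [hC, h8, hlog.eventually_gt_atTop 0] with n h9 h10 h11
    rw [lt_div_iff₀ h11]
    rw [div_lt_iff₀ (by linarith)] at h10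
    nlinarith
  · intro s hs
    obtain ⟨C, hC⟩ := loglog_upper hX h2
    have h8 : ∀ᶠ n : ℕ in atTop, C / (s - 2) < Real.log n := hlog.eventually_gt_atTop _
    filter_upwards [hC, h8, hlog.eventually_gt_atTop 0] with n h9 h10 h11
    rw [div_lt_iff₀ h11]
    rw [div_lt_iff₀ (by linarith)] at h10
    nlinarith

end count

end Pool.Agent.H36Glue
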