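import Pool.Agent.H36Glue.Rect

/-!
# Exchangeable patterns of `ℤ²`-subshifts of finite type
-/

set_option autoImplicit false

namespace Pool.Agent.H36Glue

open Filter Topology

variable {A : Type*}

/-- The subshift of finite type given by the set `F` of the allowed `w × w` patterns. -/
def SFT (w : ℕ) (F : Set (Fin w × Fin w → A)) : Set (ℤ × ℤ → A) := {x | ∀ v, pat w (tr v x) ∈ F}

lemma invariant_SFT (w : ℕ) (F : Set (Fin w × Fin w → A)) : Invariant (SFT w F) := by
  intro x hx v u
  rw [tr_tr]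
  exact hx _

/-- the cells of the frame of width `w` of the square of side `n` -/
def frame (w n : ℕ) : Finset (Fin n × Fin n) :=
  Finset.univ.filter fun i => (i.1 : ℕ) < w ∨ n ≤ (i.1 : ℕ) + w ∨ (i.2 : ℕ) < w ∨ n ≤ (i.2 : ℕ) + w

lemma card_lt_le (w n : ℕ) : (Finset.univ.filter fun i : Fin n => (i : ℕ) < w).card ≤ w := by
  have : (Finset.univ.filter fun i : Fin n => (i : ℕ) < w).card ≤ (Finset.range w).card := by
    refine Finset.card_le_card_of_injOn (fun i => (i : ℕ)) ?_ ?_
    · intro i hi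
      simpa using hi
    · intro i _ j _ h
      exact Fin.ext h
  simpa using this

lemma card_gt_le (w n : ℕ) : (Finset.univ.filter fun i : Fin n => n ≤ (i : ℕ) + w).card ≤ w := by
  have : (Finset.univ.filter fun i : Fin n => n ≤ (i : ℕ) + w).card ≤ (Finset.range w).card := by
    refine Finset.card_le_card_of_injOn (fun i => n - 1 - (i : ℕ)) ?_ ?_
    · intro i hi
      have h1 := i.2
      have h2 : n ≤ (i : ℕ) + w := by simpa using hi
      simp only [Finset.coe_range, Set.mem_Iio]
      omega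
    · intro i _ j _ h
      have h1 := i.2
      have h2 := j.2
      apply Fin.ext
      simp only at h
      omega
  simpa using this

lemma card_frame (w n : ℕ) : (frame w n).card ≤ 4 * w * n := by
  classical
  set L := Finset.univ.filter fun i : Fin n => (i : ℕ) < w
  set G := Finset.univ.filter fun i : Fin n => n ≤ (i : ℕ) + w
  have h1 : frame w n ⊆ ((L ×ˢ Finset.univ) ∪ (G ×ˢ Finset.univ)) ∪
      ((Finset.univ ×ˢ L) ∪ (Finset.univ ×ˢ G)) := by
    intro i hi
    have hi' : (i.1 : ℕ) < w ∨ n ≤ (i.1 : ℕ) + w ∨ (i.2 : ℕ) < w ∨ n ≤ (i.2 : ℕ) + w := by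
      simpa [frame] using hi
    simp only [Finset.mem_union, Finset.mem_product, Finset.mem_univ, and_true, true_and, L, G,
      Finset.mem_filter]
    tauto
  have h2 := Finset.card_le_card h1
  have h3 : L.card ≤ w := card_lt_le w n
  have h4 : G.card ≤ w := card_gt_le w n
  calc (frame w n).card ≤ _ := h2
    _ ≤ _ := Finset.card_union_le _ _
    _ ≤ ((L ×ˢ (Finset.univ : Finset (Fin n))).card + (G ×ˢ (Finset.univ : Finset (Fin n))).card) +
        (((Finset.univ : Finset (Fin n)) ×ˢ L).card + ((Finset.univ : Finset (Fin n)) ×ˢ G).card) :=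
        add_le_add (Finset.card_union_le _ _) (Finset.card_union_le _ _)
    _ = (L.card * n + G.card * n) + (n * L.card + n * G.card) := by
        simp only [Finset.card_product, Finset.card_univ, Fintype.card_fin]
    _ ≤ (w * n + w * n) + (n * w + n * w) := by gcongr
    _ = 4 * w * n := by ring

/-- two different patterns with the same frame -/
lemma exists_exch [Finite A] {X : Set (ℤ × ℤ → A)} (hne : X.Nonempty) {w n : ℕ}
    (h : Real.exp (4 * w * Real.log (Nat.card A) * n) < cnt X n) :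
    ∃ p ∈ X, ∃ q ∈ X, pat n p ≠ pat n q ∧ ∀ i ∈ frame w n, pat n p i = pat n q i := by
  classical
  by_contra hc
  push Not at hc
  have hinj : Set.InjOn (fun (u : Fin n × Fin n → A) (i : frame w n) => u i) (Lang X n) := by
    rintro _ ⟨p, hp, rfl⟩ _ ⟨q, hq, rfl⟩ hpq
    by_contra hne
    obtain ⟨i, hi, hi'⟩ := hc p hp q hq hne
    exact hi' (congrFun hpq ⟨i, hi⟩)
  have h1 : cnt X n ≤ Nat.card (frame w n → A) := by
    have h2 := hinj.ncard_image
    have h3 := Set.ncard_le_ncard (Set.subset_univ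
      ((fun (u : Fin n × Fin n → A) (i : frame w n) => u i) '' (Lang X n))) (Set.toFinite _)
    rw [h2, Set.ncard_univ] at h3
    exact h3
  rw [Nat.card_fun, Nat.card_eq_fintype_card (α := frame w n), Fintype.card_coe] at h1
  have hA : 0 < Nat.card A := by
    obtain ⟨x, _⟩ := hne
    have : Nonempty A := ⟨x 0⟩
    exact Nat.card_pos
  have h2 : cnt X n ≤ Nat.card A ^ (4 * w * n) :=
    h1.trans (Nat.pow_le_pow_right hA (card_frame w n))
  have h3 : (cnt X n : ℝ) ≤ Real.exp (4 * w * Real.log (Nat.card A) * n) := by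
    have h4 : ((Nat.card A ^ (4 * w * n) : ℕ) : ℝ) =
        Real.exp (4 * w * Real.log (Nat.card A) * n) := by
      have h5 : (0 : ℝ) < Nat.card A := by exact_mod_cast hA
      rw [show 4 * (w : ℝ) * Real.log (Nat.card A) * n = ((4 * w * n : ℕ) : ℝ) *
        Real.log (Nat.card A) by push_cast; ring, ← Real.log_pow, Real.exp_log (by positivity)]
      push_cast
      rfl
    rw [← h4]
    exact_mod_cast h2
  exact absurd h (not_lt.2 h3)

/-- the grid cell of `m` in the grid of side `n` with offset `c` -/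
def gc (n : ℕ) (c m : ℤ × ℤ) : ℤ × ℤ := ((m.1 - c.1) / n, (m.2 - c.2) / n)

/-- the corner of a grid cell -/
def corner (n : ℕ) (c g : ℤ × ℤ) : ℤ × ℤ := (c.1 + n * g.1, c.2 + n * g.2)

open Classical in
/-- replace the content of the grid cells in `T` -/
noncomputable def exch (n : ℕ) (c : ℤ × ℤ) (T : Set (ℤ × ℤ)) (q x : ℤ × ℤ → A) : ℤ × ℤ → A :=
  fun m => if gc n c m ∈ T then q (m - corner n c (gc n c m)) else x m

lemma gc_spec {n : ℕ} (hn : 0 < n) (c m : ℤ × ℤ) :
    0 ≤ (m - corner n c (gc n c m)).1 ∧ (m - corner n c (gc n c m)).1 < n ∧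
    0 ≤ (m - corner n c (gc n c m)).2 ∧ (m - corner n c (gc n c m)).2 < n := by
  have hn' : (0 : ℤ) < n := by exact_mod_cast hn
  have a1 := Int.emod_nonneg (m.1 - c.1) hn'.ne'
  have a2 := Int.emod_lt_of_pos (m.1 - c.1) hn'
  have a3 := Int.emod_add_mul_ediv (m.1 - c.1) n
  have b1 := Int.emod_nonneg (m.2 - c.2) hn'.ne'
  have b2 := Int.emod_lt_of_pos (m.2 - c.2) hn'
  have b3 := Int.emod_add_mul_ediv (m.2 - c.2) n
  simp only [corner, gc, Prod.fst_sub, Prod.snd_sub]
  refine ⟨?_, ?_, ?_, ?_⟩ <;> linarith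

lemma gc_unique {n : ℕ} {c m g : ℤ × ℤ}
    (h1 : 0 ≤ (m - corner n c g).1) (h2 : (m - corner n c g).1 < n)
    (h3 : 0 ≤ (m - corner n c g).2) (h4 : (m - corner n c g).2 < n) : gc n c m = g := by
  simp only [corner, Prod.fst_sub, Prod.snd_sub] at h1 h2 h3 h4
  have hn' : (0 : ℤ) < n := by linarith
  ext
  · show (m.1 - c.1) / n = g.1
    rw [Int.ediv_eq_iff_of_pos hn']
    constructor <;> linarith
  · show (m.2 - c.2) / n = g.2
    rw [Int.ediv_eq_iff_of_pos hn']
    constructor <;> linarith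

lemma exch_mem {w n : ℕ} {F : Set (Fin w × Fin w → A)} {x p q : ℤ × ℤ → A} (hn : 0 < n)
    (hx : x ∈ SFT w F) (hq : q ∈ SFT w F) (hfr : ∀ i ∈ frame w n, pat n p i = pat n q i)
    {c : ℤ × ℤ} {T : Set (ℤ × ℤ)} (hT : ∀ g ∈ T, pat n (tr (corner n c g) x) = pat n p) :
    exch n c T q x ∈ SFT w F := by
  intro v
  by_cases h : ∃ i : Fin w × Fin w, gc n c (((i.1 : ℤ), (i.2 : ℤ)) + v) ∈ T ∧
      (w : ℤ) ≤ ((((i.1 : ℤ), (i.2 : ℤ)) + v) - corner n c (gc n c (((i.1 : ℤ), (i.2 : ℤ)) + v))).1 ∧
      ((((i.1 : ℤ), (i.2 : ℤ)) + v) - corner n c (gc n c (((i.1 : ℤ), (i.2 : ℤ)) + v))).1 + w < n ∧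
      (w : ℤ) ≤ ((((i.1 : ℤ), (i.2 : ℤ)) + v) - corner n c (gc n c (((i.1 : ℤ), (i.2 : ℤ)) + v))).2 ∧
      ((((i.1 : ℤ), (i.2 : ℤ)) + v) - corner n c (gc n c (((i.1 : ℤ), (i.2 : ℤ)) + v))).2 + w < n
  · obtain ⟨i, hg, h1, h2, h3, h4⟩ := h
    set g := gc n c (((i.1 : ℤ), (i.2 : ℤ)) + v) with hgdef
    have e : pat w (tr v (exch n c T q x)) = pat w (tr (v - corner n c g) q) := by
      funext j
      have hi1 := i.1.2
      have hi2 := i.2.2
      have hj1 := j.1.2
      have hj2 := j.2.2
      have e1 : gc n c (((j.1 : ℤ), (j.2 : ℤ)) + v) = g := by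
        simp only [Prod.fst_sub, Prod.snd_sub, Prod.fst_add, Prod.snd_add] at h1 h2 h3 h4
        apply gc_unique <;> simp only [Prod.fst_sub, Prod.snd_sub, Prod.fst_add, Prod.snd_add] <;>
          omega
      simp only [pat, tr, exch]
      rw [e1, if_pos hg]
      congr 1
      abel
    rw [e]
    exact hq _
  · push Not at h
    have e : pat w (tr v (exch n c T q x)) = pat w (tr v x) := by
      funext j
      simp only [pat, tr, exch]
      split_ifs with hg
      · have h5 := h j hg
        set m : ℤ × ℤ := ((j.1 : ℤ), (j.2 : ℤ)) + v with hm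
        set g := gc n c m with hgd
        obtain ⟨s1, s2, s3, s4⟩ := gc_spec hn c m
        rw [← hgd] at s1 s2 s3 s4
        set r := m - corner n c g with hr
        let i : Fin n × Fin n := (⟨r.1.toNat, by omega⟩, ⟨r.2.toNat, by omega⟩)
        have hi : i ∈ frame w n := by
          simp only [frame, Finset.mem_filter, Finset.mem_univ, true_and, i]
          by_contra hc
          push Not at hc
          have := h5 (by omega) (by omega) (by omega)
          omega
        have hir : (((i.1 : ℕ) : ℤ), ((i.2 : ℕ) : ℤ)) = r := by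
          ext
          · simp [i, Int.toNat_of_nonneg s1]
          · simp [i, Int.toNat_of_nonneg s3]
        have h6 := hfr i hi
        have h7 := congrFun (hT g hg) i
        simp only [pat, tr] at h6 h7
        rw [hir] at h6 h7
        rw [← h6, ← h7, hr, sub_add_cancel]
      · rfl
    rw [e]
    exact hx v

lemma pat_exch {n : ℕ} {x q : ℤ × ℤ → A} {c g : ℤ × ℤ} {T : Set (ℤ × ℤ)} :
    (g ∈ T → pat n (tr (corner n c g) (exch n c T q x)) = pat n q) ∧
    (g ∉ T → pat n (tr (corner n c g) (exch n c T q x)) = pat n (tr (corner n c g) x)) := by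
  have e : ∀ j : Fin n × Fin n, gc n c (((j.1 : ℤ), (j.2 : ℤ)) + corner n c g) = g := by
    intro j
    have hj1 := j.1.2
    have hj2 := j.2.2
    apply gc_unique <;> rw [add_sub_cancel_right] <;> simp
  constructor
  · intro hg
    funext j
    simp only [pat, tr, exch]
    rw [e, if_pos hg, add_sub_cancel_right]
  · intro hg
    funext j
    simp only [pat, tr, exch]
    rw [e, if_neg hg]

/-- every set of occurrences on a grid gives `2 ^ #V` patterns -/
lemma two_pow_le [Finite A] {w n N : ℕ} {F : Set (Fin w × Fin w → A)} {x p q : ℤ × ℤ → A}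
    (hn : 0 < n) (hx : x ∈ SFT w F) (hq : q ∈ SFT w F) (hpq : pat n p ≠ pat n q)
    (hfr : ∀ i ∈ frame w n, pat n p i = pat n q i) {c : ℤ × ℤ} (V : Finset (ℤ × ℤ))
    (hV : ∀ g ∈ V, pat n (tr (corner n c g) x) = pat n p)
    (hV2 : ∀ g ∈ V, 0 ≤ (corner n c g).1 ∧ (corner n c g).1 < N ∧ 0 ≤ (corner n c g).2 ∧
      (corner n c g).2 < N) : 2 ^ V.card ≤ cnt (SFT w F) (N + n) := by
  classical
  have hfin := lang_finite (SFT w F) (N + n)
  have h1 : V.powerset.card ≤ hfin.toFinset.card := by
    refine Finset.card_le_card_of_injOn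
      (fun T : Finset (ℤ × ℤ) => pat (N + n) (exch n c (T : Set (ℤ × ℤ)) q x)) ?_ ?_
    · intro T hT
      rw [Finset.mem_coe, hfin.mem_toFinset]
      refine ⟨_, exch_mem hn hx hq hfr (T := (T : Set (ℤ × ℤ))) ?_, rfl⟩
      intro g hg
      exact hV g (Finset.mem_powerset.1 hT hg)
    · intro T hT T' hT' h
      have key : ∀ g ∈ V, pat n (tr (corner n c g) (exch n c (T : Set (ℤ × ℤ)) q x)) =
          pat n (tr (corner n c g) (exch n c (T' : Set (ℤ × ℤ)) q x)) := by
        intro g hg
        obtain ⟨a1, a2, a3, a4⟩ := hV2 g hg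
        rw [pat_eq_iff]
        intro i j hi hi' hj hj'
        exact pat_eq_iff.1 h (i + (corner n c g).1) (j + (corner n c g).2) (by omega)
          (by push_cast; omega) (by omega) (by push_cast; omega)
      have hTV : ∀ g ∈ T, g ∈ V := fun g hg => Finset.mem_powerset.1 hT hg
      have hTV' : ∀ g ∈ T', g ∈ V := fun g hg => Finset.mem_powerset.1 hT' hg
      ext g
      constructor
      · intro hg
        by_contra hg'
        have h2 := key g (hTV g hg)
        rw [(pat_exch (T := (T : Set (ℤ × ℤ)))).1 hg,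
          (pat_exch (T := (T' : Set (ℤ × ℤ)))).2 hg', hV g (hTV g hg)] at h2
        exact hpq h2.symm
      · intro hg
        by_contra hg'
        have h2 := key g (hTV' g hg)
        rw [(pat_exch (T := (T' : Set (ℤ × ℤ)))).1 hg,
          (pat_exch (T := (T : Set (ℤ × ℤ)))).2 hg', hV g (hTV' g hg)] at h2
        exact hpq h2
  rw [Finset.card_powerset] at h1
  refine h1.trans (le_of_eq ?_)
  exact (Set.ncard_eq_toFinset_card _ hfin).symm

/-- the positions in `{0, …, N - 1}²` at which the pattern `u` occurs in `x` -/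
noncomputable def occ {n : ℕ} (u : Fin n × Fin n → A) (x : ℤ × ℤ → A) (N : ℕ) : ℕ :=
  {v : Fin N × Fin N | pat n (tr ((v.1 : ℤ), (v.2 : ℤ)) x) = u}.ncard

/-- a positive density of occurrences of an exchangeable pattern gives many patterns -/
lemma two_pow_density [Finite A] {w n N : ℕ} {F : Set (Fin w × Fin w → A)} {x p q : ℤ × ℤ → A}
    (hn : 0 < n) (hx : x ∈ SFT w F) (hq : q ∈ SFT w F) (hpq : pat n p ≠ pat n q)
    (hfr : ∀ i ∈ frame w n, pat n p i = pat n q i) {r : ℝ} (hr : r * n ^ 2 ≤ occ (pat n p) x N) :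
    (2 : ℝ) ^ r ≤ cnt (SFT w F) (N + n) := by
  classical
  set S : Finset (Fin N × Fin N) := Finset.univ.filter fun v =>
    pat n (tr ((v.1 : ℤ), (v.2 : ℤ)) x) = pat n p with hS
  have hSc : occ (pat n p) x N = S.card := by
    unfold occ
    rw [Set.ncard_eq_toFinset_card']
    congr 1
    ext v
    simp [hS]
  let f : Fin N × Fin N → ℕ × ℕ := fun v => ((v.1 : ℕ) % n, (v.2 : ℕ) % n)
  obtain ⟨y, hy, hy2⟩ := Finset.exists_le_card_fiber_of_nsmul_le_card_of_maps_to (s := S)
    (t := Finset.range n ×ˢ Finset.range n) (f := f) (b := r)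
    (fun v _ => by
      simp only [f, Finset.mem_product, Finset.mem_range]
      exact ⟨Nat.mod_lt _ hn, Nat.mod_lt _ hn⟩)
    ⟨(0, 0), by simp [hn]⟩
    (by
      rw [Finset.card_product, Finset.card_range, nsmul_eq_mul, ← hSc]
      push_cast
      calc (n : ℝ) * n * r = r * n ^ 2 := by ring
        _ ≤ _ := hr)
  let c : ℤ × ℤ := ((y.1 : ℤ), (y.2 : ℤ))
  let G : Fin N × Fin N → ℤ × ℤ := fun v => (((v.1 / n : ℕ) : ℤ), ((v.2 / n : ℕ) : ℤ))
  have hcor : ∀ v ∈ S.filter (fun v => f v = y), corner n c (G v) = ((v.1 : ℤ), (v.2 : ℤ)) := by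
    intro v hv
    have h1 : f v = y := (Finset.mem_filter.1 hv).2
    have h2 : (v.1 : ℕ) % n = y.1 := congrArg Prod.fst h1
    have h3 : (v.2 : ℕ) % n = y.2 := congrArg Prod.snd h1
    have h4 := Nat.mod_add_div (v.1 : ℕ) n
    have h5 := Nat.mod_add_div (v.2 : ℕ) n
    rw [h2] at h4
    rw [h3] at h5
    simp only [corner, c, G]
    ext
    · simp only
      exact_mod_cast h4
    · simp only
      exact_mod_cast h5
  have hinj : Set.InjOn G (S.filter (fun v => f v = y) : Set (Fin N × Fin N)) := by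
    intro v hv v' hv' h
    have h1 := hcor v hv
    have h2 := hcor v' hv'
    rw [h] at h1
    rw [h1] at h2
    simp only [Prod.mk.injEq, Nat.cast_inj] at h2
    ext
    · exact h2.1
    · exact h2.2
  have h1 := two_pow_le (N := N) (c := c) hn hx hq hpq hfr
    ((S.filter (fun v => f v = y)).image G) (by
      intro g hg
      obtain ⟨v, hv, rfl⟩ := Finset.mem_image.1 hg
      rw [hcor v hv]
      exact (Finset.mem_filter.1 (Finset.mem_filter.1 hv).1).2) (by
      intro g hg
      obtain ⟨v, hv, rfl⟩ := Finset.mem_image.1 hg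
      rw [hcor v hv]
      have := v.1.2
      have := v.2.2
      simp only
      omega)
  rw [Finset.card_image_of_injOn hinj] at h1
  calc (2 : ℝ) ^ r ≤ (2 : ℝ) ^ ((S.filter (fun v => f v = y)).card : ℝ) :=
        Real.rpow_le_rpow_of_exponent_le (by norm_num) hy2
    _ = (2 : ℝ) ^ (S.filter (fun v => f v = y)).card := Real.rpow_natCast _ _
    _ ≤ _ := by exact_mod_cast h1

end Pool.Agent.H36Glue
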