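import Pool.Agent.H36Glue.Basic

/-!
# Block gluing of `ℤ²`-subshifts: growth of the number of patterns
-/

set_option autoImplicit false

namespace Pool.Agent.H36Glue

open Filter Topology

variable {A : Type*}

lemma gluesH_mono {X : Set (ℤ × ℤ → A)} (hX : Invariant X) {n m k : ℕ} (hnm : n ≤ m)
    (h : GluesH X m k) : GluesH X n k := by
  rintro _ ⟨x, hx, rfl⟩ _ ⟨y, hy, rfl⟩
  obtain ⟨z, hz, h1⟩ := glueH h (hX x hx (-((m : ℤ) - n), 0)) hy
  refine ⟨tr ((m : ℤ) - n, 0) z, hX z hz _, ?_, ?_⟩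
  · rw [pat_eq_iff]
    intro i j hi hi' hj hj'
    have := (h1 (i + (m - n)) j (by omega) (by omega) hj (by omega)).1
    simp only [tr, Prod.mk_add_mk, add_zero] at this ⊢
    rw [this]
    congr 2
    ring
  · rw [pat_eq_iff]
    intro i j hi hi' hj hj'
    have := (h1 i j hi (by omega) hj (by omega)).2
    simp only [tr, Prod.mk_add_mk, add_zero] at this ⊢
    rw [← this]
    congr 2
    push_cast; ring

lemma gluesV_mono {X : Set (ℤ × ℤ → A)} (hX : Invariant X) {n m k : ℕ} (hnm : n ≤ m)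
    (h : GluesV X m k) : GluesV X n k := by
  rintro _ ⟨x, hx, rfl⟩ _ ⟨y, hy, rfl⟩
  obtain ⟨z, hz, h1⟩ := glueV h (hX x hx (0, -((m : ℤ) - n))) hy
  refine ⟨tr (0, (m : ℤ) - n) z, hX z hz _, ?_, ?_⟩
  · rw [pat_eq_iff]
    intro i j hi hi' hj hj'
    have := (h1 i (j + (m - n)) hi (by omega) (by omega) (by omega)).1
    simp only [tr, Prod.mk_add_mk, add_zero] at this ⊢
    rw [this]
    congr 2
    ring
  · rw [pat_eq_iff]
    intro i j hi hi' hj hj'
    have := (h1 i j hi (by omega) hj (by omega)).2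
    simp only [tr, Prod.mk_add_mk, add_zero] at this ⊢
    rw [← this]
    congr 2
    push_cast; ring

lemma B_mono {X : Set (ℤ × ℤ → A)} (hX : Invariant X) : Monotone (B X) := by
  intro n m hnm
  rcases eq_or_ne (B X m) ⊤ with h | h
  · rw [h]; exact le_top
  · obtain ⟨k, hk⟩ := ENat.ne_top_iff_exists.1 h
    rw [← hk]
    refine le_of_glues fun k' hk' => ?_
    have h3 : B X m ≤ k' := by rw [← hk]; exact_mod_cast hk'
    have h4 := glues_of_le h3
    exact ⟨gluesH_mono hX hnm h4.1, gluesV_mono hX hnm h4.2⟩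

section count
variable [Finite A]

lemma one_le_cnt {X : Set (ℤ × ℤ → A)} (h : X.Nonempty) (n : ℕ) : 1 ≤ cnt X n := by
  have : (Lang X n).Nonempty := h.image _
  exact (Set.ncard_pos (lang_finite X n)).2 this

omit [Finite A] in
/-- iterated doubling along a sequence of sides -/
lemma pow_le_cnt_seq {X : Set (ℤ × ℤ → A)} {u : ℕ → ℕ} (h0 : 2 ≤ cnt X (u 0))
    (hs : ∀ i, cnt X (u i) ^ 4 ≤ cnt X (u (i + 1))) (i : ℕ) : 2 ^ 4 ^ i ≤ cnt X (u i) := by
  induction i with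
  | zero => simpa using h0
  | succ i ih =>
    calc 2 ^ 4 ^ (i + 1) = (2 ^ 4 ^ i) ^ 4 := by rw [← pow_mul, pow_succ]
      _ ≤ cnt X (u i) ^ 4 := Nat.pow_le_pow_left ih 4
      _ ≤ _ := hs i

/-- **Positive entropy.** -/
theorem exp_growth {X : Set (ℤ × ℤ → A)} (hX : Invariant X) (h2 : X.Nontrivial) (b : ℕ → ℕ)
    (hb : ∀ᶠ k in atTop, B X (2 ^ k) ≤ b k) (hsum : Summable fun k => (b k : ℝ) / 2 ^ k) :
    ∃ c : ℝ, 0 < c ∧ ∀ n : ℕ, Real.exp (c * n ^ 2) ≤ cnt X n := by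
  set ε : ℕ → ℝ := fun k => (b k : ℝ) / 2 ^ k with hε
  have hε0 : ∀ k, 0 ≤ ε k := fun k => by positivity
  have htail := tendsto_sum_nat_add ε
  obtain ⟨N, hN⟩ := eventually_atTop.1 hb
  have h1 : ∀ᶠ K in atTop, ∑' j, ε (j + K) < 1 / 4 := htail.eventually_lt_const (by norm_num)
  obtain ⟨K', hK'⟩ := eventually_atTop.1 h1
  set k0 := max N K' with hk0
  have htl : ∑' j, ε (j + (k0 + 3)) < 1 / 4 := hK' _ (by omega)
  have hsm : Summable fun j => ε (j + (k0 + 3)) := (summable_nat_add_iff (k0 + 3)).2 hsum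
  have hps : ∀ i, ∑ j ∈ Finset.range i, ε (j + (k0 + 3)) ≤ 1 / 4 := fun i =>
    (hsm.sum_le_tsum _ (fun j _ => hε0 _)).trans htl.le
  have hterm : ∀ i, ε (i + (k0 + 3)) ≤ 1 / 4 := fun i =>
    (hsm.le_tsum i (fun j _ => hε0 _)).trans htl.le
  -- the sequence of sides
  obtain ⟨u, u0, us⟩ : ∃ u : ℕ → ℕ, u 0 = 2 ^ k0 ∧ ∀ i, u (i + 1) = 2 * u i + b (i + (k0 + 3)) :=
    ⟨fun i => Nat.rec (motive := fun _ => ℕ) (2 ^ k0) (fun i v => 2 * v + b (i + (k0 + 3))) i,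
      rfl, fun _ => rfl⟩
  have hr : ∀ i, (u i : ℝ) = 2 ^ (k0 + 1 + i) *
      (1 / 2 + 2 * ∑ j ∈ Finset.range i, ε (j + (k0 + 3))) := by
    intro i
    induction i with
    | zero => simp [u0, pow_succ]
    | succ i ih =>
      rw [us, Finset.sum_range_succ]
      push_cast
      rw [ih]
      have : (b (i + (k0 + 3)) : ℝ) = 2 ^ (i + (k0 + 3)) * ε (i + (k0 + 3)) := by
        simp only [hε]
        field_simp
      rw [this]
      ring
  have hu : ∀ i, u i ≤ 2 ^ (k0 + 1 + i) := by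
    intro i
    have h3 : (u i : ℝ) ≤ 2 ^ (k0 + 1 + i) := by
      rw [hr]
      have := hps i
      have h4 : (0 : ℝ) < 2 ^ (k0 + 1 + i) := by positivity
      nlinarith
    exact_mod_cast h3
  have hbs : ∀ i, b (i + (k0 + 3)) ≤ 2 ^ (k0 + 1 + i) := by
    intro i
    have h3 := hterm i
    have h4 : (b (i + (k0 + 3)) : ℝ) ≤ 2 ^ (k0 + 1 + i) := by
      simp only [hε] at h3
      rw [div_le_iff₀ (by positivity)] at h3
      calc (b (i + (k0 + 3)) : ℝ) ≤ 1 / 4 * 2 ^ (i + (k0 + 3)) := h3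
        _ = 2 ^ (k0 + 1 + i) := by ring
    exact_mod_cast h4
  have hstep : ∀ i, cnt X (u i) ^ 4 ≤ cnt X (u (i + 1)) := by
    intro i
    refine cnt_pow_le hX (us i).symm ?_
    have h3 : u (i + 1) ≤ 2 ^ (i + (k0 + 3)) := by
      have e1 : 2 ^ (i + (k0 + 3)) = 4 * 2 ^ (k0 + 1 + i) := by ring
      rw [us, e1]
      have := hu i
      have := hbs i
      omega
    exact (B_mono hX h3).trans (hN _ (by omega))
  have hpow := pow_le_cnt_seq (X := X) (u := u)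
    (by rw [u0]; exact two_le_cnt hX h2 (Nat.one_le_two_pow)) hstep
  have hpow2 : ∀ i, 2 ^ 4 ^ i ≤ cnt X (2 ^ (k0 + 1 + i)) := fun i =>
    (hpow i).trans (cnt_mono X (hu i))
  refine ⟨Real.log 2 / 4 ^ (k0 + 2), by positivity, fun n => ?_⟩
  have hlog2 : 0 < Real.log 2 := Real.log_pos (by norm_num)
  rcases Nat.eq_zero_or_pos n with rfl | hn
  · simpa using one_le_cnt h2.nonempty 0
  by_cases hsmall : n < 2 ^ (k0 + 1)
  · have h3 : Real.exp (Real.log 2 / 4 ^ (k0 + 2) * n ^ 2) ≤ 2 := by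
      rw [← Real.le_log_iff_exp_le (by norm_num)]
      have h4 : (n : ℝ) ^ 2 ≤ 4 ^ (k0 + 2) := by
        have h5 : (n : ℝ) ≤ 2 ^ (k0 + 2) := by
          have : n ≤ 2 ^ (k0 + 2) := hsmall.le.trans (Nat.pow_le_pow_right (by norm_num) (by omega))
          exact_mod_cast this
        calc (n : ℝ) ^ 2 ≤ (2 ^ (k0 + 2)) ^ 2 := by gcongr
          _ = 4 ^ (k0 + 2) := by rw [← pow_mul, mul_comm, pow_mul]; norm_num
      rw [div_mul_eq_mul_div, div_le_iff₀ (by positivity)]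
      exact mul_le_mul_of_nonneg_left h4 hlog2.le
    refine h3.trans ?_
    exact_mod_cast two_le_cnt hX h2 hn
  · push Not at hsmall
    -- the largest `i` with `2 ^ (k0 + 1 + i) ≤ n`
    obtain ⟨i, hi1, hi2⟩ : ∃ i, 2 ^ (k0 + 1 + i) ≤ n ∧ n < 2 ^ (k0 + 2 + i) := by
      have h3 : k0 + 1 ≤ Nat.log 2 n := Nat.le_log_of_pow_le (by norm_num) hsmall
      refine ⟨Nat.log 2 n - (k0 + 1), ?_, ?_⟩
      · rw [Nat.add_sub_cancel' h3]
        exact Nat.pow_log_le_self 2 (by omega)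
      · rw [show k0 + 2 + (Nat.log 2 n - (k0 + 1)) = Nat.log 2 n + 1 by omega]
        exact Nat.lt_pow_succ_log_self (by norm_num) n
    have h3 : (2 : ℝ) ^ 4 ^ i ≤ cnt X n := by
      exact_mod_cast (hpow2 i).trans (cnt_mono X hi1)
    refine le_trans ?_ h3
    rw [← Real.le_log_iff_exp_le (by positivity), Real.log_pow]
    have h4 : (n : ℝ) ^ 2 ≤ 4 ^ (k0 + 2) * 4 ^ i := by
      have h5 : (n : ℝ) ≤ 2 ^ (k0 + 2 + i) := by exact_mod_cast hi2.le
      calc (n : ℝ) ^ 2 ≤ (2 ^ (k0 + 2 + i)) ^ 2 := by gcongr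
        _ = 4 ^ (k0 + 2) * 4 ^ i := by rw [← pow_mul, mul_comm, pow_mul, ← pow_add]; norm_num
    rw [div_mul_eq_mul_div, div_le_iff₀ (by positivity)]
    push_cast
    calc Real.log 2 * (n : ℝ) ^ 2 ≤ Real.log 2 * (4 ^ (k0 + 2) * 4 ^ i) := by gcongr
      _ = 4 ^ i * Real.log 2 * 4 ^ (k0 + 2) := by ring

end count

end Pool.Agent.H36Glue
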