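import Pool.Agent.H36Glue.Growth

/-!
# Block gluing of `ℤ²`-subshifts: patterns on rectangles

If `B(n) ≤ c n` with `c < 1`, the number of `n × n` patterns grows faster than `exp (M n)`.
-/

set_option autoImplicit false

namespace Pool.Agent.H36Glue

open Filter Topology

variable {A : Type*}

/-- the pattern of `x` in the rectangle `{0, …, a - 1} × {0, …, b - 1}` -/
def pr (a b : ℕ) (x : ℤ × ℤ → A) : Fin a × Fin b → A := fun i => x ((i.1 : ℤ), (i.2 : ℤ))

/-- the number of patterns on a rectangle -/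
noncomputable def cr (X : Set (ℤ × ℤ → A)) (a b : ℕ) : ℕ := (pr a b '' X).ncard

lemma cr_self (X : Set (ℤ × ℤ → A)) (n : ℕ) : cr X n n = cnt X n := rfl

lemma rowR {X : Set (ℤ × ℤ → A)} (hX : Invariant X) {a b M k : ℕ} (ha : a ≤ M) (hb : b ≤ M)
    (h : GluesH X M k) {x y : ℤ × ℤ → A} (hx : x ∈ X) (hy : y ∈ X) :
    ∃ z ∈ X, ∀ i j : ℤ, 0 ≤ i → i < a → 0 ≤ j → j < b →
      z (i, j) = x (i, j) ∧ z (i + (a + k), j) = y (i, j) := by
  obtain ⟨z, hz, h1⟩ := glueH h (hX x hx (-((M : ℤ) - a), 0)) hy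
  refine ⟨tr ((M : ℤ) - a, 0) z, hX z hz _, fun i j hi hi' hj hj' => ⟨?_, ?_⟩⟩
  · have := (h1 (i + (M - a)) j (by omega) (by omega) hj (by omega)).1
    simp only [tr, Prod.mk_add_mk, add_zero] at this ⊢
    rw [this]
    congr 2
    ring
  · have := (h1 i j hi (by omega) hj (by omega)).2
    simp only [tr, Prod.mk_add_mk, add_zero] at this ⊢
    rw [← this]
    congr 2
    ring

lemma colR {X : Set (ℤ × ℤ → A)} (hX : Invariant X) {a b M k : ℕ} (ha : a ≤ M) (hb : b ≤ M)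
    (h : GluesV X M k) {x y : ℤ × ℤ → A} (hx : x ∈ X) (hy : y ∈ X) :
    ∃ z ∈ X, ∀ i j : ℤ, 0 ≤ i → i < a → 0 ≤ j → j < b →
      z (i, j) = x (i, j) ∧ z (i, j + (b + k)) = y (i, j) := by
  obtain ⟨z, hz, h1⟩ := glueV h (hX x hx (0, -((M : ℤ) - b))) hy
  refine ⟨tr (0, (M : ℤ) - b) z, hX z hz _, fun i j hi hi' hj hj' => ⟨?_, ?_⟩⟩
  · have := (h1 i (j + (M - b)) hi (by omega) (by omega) (by omega)).1
    simp only [tr, Prod.mk_add_mk, add_zero] at this ⊢
    rw [this]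
    congr 2
    ring
  · have := (h1 i j hi (by omega) hj (by omega)).2
    simp only [tr, Prod.mk_add_mk, add_zero] at this ⊢
    rw [← this]
    congr 2
    ring

section count
variable [Finite A]

lemma cr_sq_le_H {X : Set (ℤ × ℤ → A)} (hX : Invariant X) {a b M k : ℕ} (ha : a ≤ M) (hb : b ≤ M)
    (h : B X M ≤ k) : cr X a b ^ 2 ≤ cr X (2 * a + k) b := by
  classical
  let e : Fin a → Fin (2 * a + k) := fun i => ⟨i, by omega⟩
  let f : Fin a → Fin (2 * a + k) := fun i => ⟨i + (a + k), by omega⟩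
  let F : (Fin (2 * a + k) × Fin b → A) → (Fin a × Fin b → A) × (Fin a × Fin b → A) := fun p =>
    (fun i => p (e i.1, i.2), fun i => p (f i.1, i.2))
  have key : (pr a b '' X) ×ˢ (pr a b '' X) ⊆ F '' (pr (2 * a + k) b '' X) := by
    rintro ⟨p, q⟩ ⟨⟨x, hx, rfl⟩, ⟨y, hy, rfl⟩⟩
    obtain ⟨z, hz, hz1⟩ := rowR hX ha hb (glues_of_le h).1 hx hy
    refine ⟨pr (2 * a + k) b z, ⟨z, hz, rfl⟩, ?_⟩
    have hz2 := fun i : Fin a × Fin b => hz1 (i.1 : ℤ) (i.2 : ℤ) (by positivity)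
      (by exact_mod_cast i.1.2) (by positivity) (by exact_mod_cast i.2.2)
    simp only [F, Prod.mk.injEq]
    refine ⟨?_, ?_⟩
    · funext i; simpa [pr, e, f] using (hz2 i).1
    · funext i; simpa [pr, e, f] using (hz2 i).2
  have h1 := Set.ncard_le_ncard key (Set.toFinite _)
  have h2 := Set.ncard_image_le (f := F) (Set.toFinite (pr (2 * a + k) b '' X))
  rw [Set.ncard_prod] at h1
  calc cr X a b ^ 2 = cr X a b * cr X a b := by ring
    _ ≤ _ := h1.trans h2

lemma cr_sq_le_V {X : Set (ℤ × ℤ → A)} (hX : Invariant X) {a b M k : ℕ} (ha : a ≤ M) (hb : b ≤ M)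
    (h : B X M ≤ k) : cr X a b ^ 2 ≤ cr X a (2 * b + k) := by
  classical
  let e : Fin b → Fin (2 * b + k) := fun i => ⟨i, by omega⟩
  let f : Fin b → Fin (2 * b + k) := fun i => ⟨i + (b + k), by omega⟩
  let F : (Fin a × Fin (2 * b + k) → A) → (Fin a × Fin b → A) × (Fin a × Fin b → A) := fun p =>
    (fun i => p (i.1, e i.2), fun i => p (i.1, f i.2))
  have key : (pr a b '' X) ×ˢ (pr a b '' X) ⊆ F '' (pr a (2 * b + k) '' X) := by
    rintro ⟨p, q⟩ ⟨⟨x, hx, rfl⟩, ⟨y, hy, rfl⟩⟩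
    obtain ⟨z, hz, hz1⟩ := colR hX ha hb (glues_of_le h).2 hx hy
    refine ⟨pr a (2 * b + k) z, ⟨z, hz, rfl⟩, ?_⟩
    have hz2 := fun i : Fin a × Fin b => hz1 (i.1 : ℤ) (i.2 : ℤ) (by positivity)
      (by exact_mod_cast i.1.2) (by positivity) (by exact_mod_cast i.2.2)
    simp only [F, Prod.mk.injEq]
    refine ⟨?_, ?_⟩
    · funext i; simpa [pr, e, f] using (hz2 i).1
    · funext i; simpa [pr, e, f] using (hz2 i).2
  have h1 := Set.ncard_le_ncard key (Set.toFinite _)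
  have h2 := Set.ncard_image_le (f := F) (Set.toFinite (pr a (2 * b + k) '' X))
  rw [Set.ncard_prod] at h1
  calc cr X a b ^ 2 = cr X a b * cr X a b := by ring
    _ ≤ _ := h1.trans h2

lemma cr_le_cnt (X : Set (ℤ × ℤ → A)) {a b : ℕ} (hab : a ≤ b) : cr X a b ≤ cnt X b := by
  let e : Fin a → Fin b := fun i => ⟨i, by omega⟩
  have key : pr a b '' X = (fun p : Fin b × Fin b → A => fun i : Fin a × Fin b =>
      p (e i.1, i.2)) '' (Lang X b) := by
    unfold Lang
    rw [← Set.image_comp]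
    rfl
  unfold cr cnt
  rw [key]
  exact Set.ncard_image_le (lang_finite X b)

/-- the sides of the rectangles -/
noncomputable def sides (K : ℕ → ℕ) (n0 : ℕ) : ℕ → ℕ × ℕ
  | 0 => (n0, n0)
  | i + 1 => (2 * (sides K n0 i).1 + K (sides K n0 i).2,
      2 * (sides K n0 i).2 + K (max (2 * (sides K n0 i).1 + K (sides K n0 i).2) (sides K n0 i).2))

omit [Finite A] in
lemma sides_le {K : ℕ → ℕ} (hK : Monotone K) (n0 i : ℕ) :
    (sides K n0 i).1 ≤ (sides K n0 i).2 ∧ n0 ≤ (sides K n0 i).2 := by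
  induction i with
  | zero => simp [sides]
  | succ i ih =>
    simp only [sides]
    have := hK (le_max_right (2 * (sides K n0 i).1 + K (sides K n0 i).2) (sides K n0 i).2)
    omega

lemma pow_le_cr {X : Set (ℤ × ℤ → A)} (hX : Invariant X) (h2 : X.Nontrivial) {K : ℕ → ℕ}
    (hK : Monotone K) {n0 : ℕ} (hn0 : 1 ≤ n0) (hB : ∀ n ≥ n0, B X n ≤ K n) (i : ℕ) :
    2 ^ 4 ^ i ≤ cr X (sides K n0 i).1 (sides K n0 i).2 := by
  induction i with
  | zero => simpa [sides, cr_self] using two_le_cnt hX h2 hn0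
  | succ i ih =>
    obtain ⟨h1, h3⟩ := sides_le hK n0 i
    set a := (sides K n0 i).1 with ha
    set b := (sides K n0 i).2 with hb
    have e : sides K n0 (i + 1) = (2 * a + K b, 2 * b + K (max (2 * a + K b) b)) := rfl
    rw [e]
    have s1 := cr_sq_le_H hX h1 le_rfl (hB b h3)
    have s2 := cr_sq_le_V (a := 2 * a + K b) (b := b) hX (le_max_left _ _) (le_max_right _ _)
      (hB (max (2 * a + K b) b) (h3.trans (le_max_right _ _)))
    calc 2 ^ 4 ^ (i + 1) = ((2 ^ 4 ^ i) ^ 2) ^ 2 := by rw [← pow_mul, ← pow_mul, pow_succ]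
      _ ≤ (cr X a b ^ 2) ^ 2 := by gcongr
      _ ≤ (cr X (2 * a + K b) b) ^ 2 := by gcongr
      _ ≤ _ := s2

/-- **Superexponential growth.** -/
theorem superexp {X : Set (ℤ × ℤ → A)} (hX : Invariant X) (h2 : X.Nontrivial) {c : ℝ} (hc0 : 0 ≤ c)
    (hc : c < 1) (hB : ∀ᶠ n : ℕ in atTop, BLe X n (c * n)) (M : ℝ) :
    ∃ n : ℕ, 1 ≤ n ∧ Real.exp (M * n) < cnt X n := by
  obtain ⟨N, hN⟩ := eventually_atTop.1 hB
  set n0 := N + 1 with hn0
  set K : ℕ → ℕ := fun n => ⌊c * n⌋₊ with hK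
  have hKm : Monotone K := by
    intro m n hmn
    exact Nat.floor_mono (by gcongr)
  have hKB : ∀ n ≥ n0, B X n ≤ K n := by
    intro n hn
    obtain ⟨m, hm1, hm2⟩ := hN n (by omega)
    refine hm1.trans ?_
    have : m ≤ K n := Nat.le_floor hm2
    exact_mod_cast this
  have hKr : ∀ n : ℕ, (K n : ℝ) ≤ c * n := fun n => Nat.floor_le (by positivity)
  have hs : ∀ i, (((sides K n0 i).1 : ℝ) + (sides K n0 i).2) ≤ (2 + 2 * c) ^ i * (2 * n0) := by
    intro i
    induction i with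
    | zero => simp [sides]; linarith
    | succ i ih =>
      obtain ⟨h1, h3⟩ := sides_le hKm n0 i
      set a := (sides K n0 i).1 with ha
      set b := (sides K n0 i).2 with hb
      have e : sides K n0 (i + 1) = (2 * a + K b, 2 * b + K (max (2 * a + K b) b)) := rfl
      rw [e]
      have k1 := hKr b
      have k2 := hKr (max (2 * a + K b) b)
      have ha0 : (0 : ℝ) ≤ a := by positivity
      have hb0 : (0 : ℝ) ≤ b := by positivity
      have key : ((2 * a + K b : ℕ) : ℝ) + ((2 * b + K (max (2 * a + K b) b) : ℕ) : ℝ) ≤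
          (2 + 2 * c) * (a + b) := by
        push_cast at k2 ⊢
        rcases le_total (2 * (a : ℝ) + K b) b with h | h
        · rw [max_eq_right h] at k2
          nlinarith [mul_nonneg hc0 ha0]
        · rw [max_eq_left h] at k2
          have k3 : (K (max (2 * a + K b) b) : ℝ) ≤ c * (2 * a + c * b) :=
            k2.trans (by gcongr)
          have k4 : c * (c * b) ≤ c * b := by
            have : c * b ≤ 1 * b := by gcongr
            calc c * (c * b) ≤ c * (1 * b) := by gcongr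
              _ = c * b := by ring
          nlinarith [mul_nonneg hc0 ha0]
      calc _ ≤ (2 + 2 * c) * ((a : ℝ) + b) := key
        _ ≤ (2 + 2 * c) * ((2 + 2 * c) ^ i * (2 * n0)) := by gcongr
        _ = _ := by ring
  -- the comparison
  have hr : Tendsto (fun i : ℕ => ((2 + 2 * c) / 4) ^ i * (|M| * (2 * n0))) atTop (𝓝 0) := by
    have := tendsto_pow_atTop_nhds_zero_of_lt_one (r := (2 + 2 * c) / 4) (by positivity)
      (by linarith)
    simpa using this.mul_const (|M| * (2 * n0))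
  obtain ⟨i, hi⟩ := (hr.eventually_lt_const (Real.log_pos (by norm_num : (1 : ℝ) < 2))).exists
  obtain ⟨h1, h3⟩ := sides_le hKm n0 i
  refine ⟨(sides K n0 i).2, by omega, ?_⟩
  have h4 : (2 : ℝ) ^ 4 ^ i ≤ cnt X (sides K n0 i).2 := by
    exact_mod_cast (pow_le_cr hX h2 hKm (by omega) hKB i).trans (cr_le_cnt X h1)
  refine lt_of_lt_of_le ?_ h4
  rw [← Real.lt_log_iff_exp_lt (by positivity), Real.log_pow]
  push_cast
  have h5 : ((sides K n0 i).2 : ℝ) ≤ (2 + 2 * c) ^ i * (2 * n0) := by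
    have : (0 : ℝ) ≤ (sides K n0 i).1 := by positivity
    linarith [hs i]
  rw [div_pow, div_mul_eq_mul_div, div_lt_iff₀ (by positivity)] at hi
  calc M * ((sides K n0 i).2 : ℝ) ≤ |M| * ((sides K n0 i).2 : ℝ) := by
        gcongr; exact le_abs_self M
    _ ≤ |M| * ((2 + 2 * c) ^ i * (2 * n0)) := by gcongr
    _ = (2 + 2 * c) ^ i * (|M| * (2 * n0)) := by ring
    _ < Real.log 2 * 4 ^ i := hi
    _ = _ := by ring

end count

end Pool.Agent.H36Glue
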