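import Pool.Agent.H36Glue.Basic

/-!
# A sparse hierarchical `ℤ²`-subshift
-/

set_option autoImplicit false

namespace Pool.Agent.H36Glue.Sparse

open Filter Topology

/-- the maximum distance on `ℤ²` -/
def dd (p q : ℤ × ℤ) : ℤ := max |p.1 - q.1| |p.2 - q.2|

/-- `q` can be reached from `p` by jumps of length less than `g` that end in cells with `true` -/
def Conn (x : ℤ × ℤ → Bool) (g : ℤ) : ℤ × ℤ → ℤ × ℤ → Prop :=
  Relation.ReflTransGen (fun a b => x b = true ∧ dd a b < g)

/-- The sparse subshift: for every `k`, cells with `true` that are connected by jumps of length less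
than `4 ^ (k + 1)` between cells with `true` have distance less than `(k + 1) 4 ^ (k + 1)`. -/
def XX : Set (ℤ × ℤ → Bool) :=
  {x | ∀ (k : ℕ) (p q : ℤ × ℤ), x p = true → Conn x (4 ^ (k + 1)) p q →
    dd p q < (k + 1) * 4 ^ (k + 1)}

lemma dd_comm (p q : ℤ × ℤ) : dd p q = dd q p := by
  unfold dd
  rw [abs_sub_comm, abs_sub_comm p.2]

lemma dd_nonneg (p q : ℤ × ℤ) : 0 ≤ dd p q := le_max_of_le_left (abs_nonneg _)

lemma dd_self (p : ℤ × ℤ) : dd p p = 0 := by simp [dd]

lemma dd_triangle (p q r : ℤ × ℤ) : dd p r ≤ dd p q + dd q r := by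
  unfold dd
  refine max_le ?_ ?_
  · calc |p.1 - r.1| ≤ |p.1 - q.1| + |q.1 - r.1| := abs_sub_le _ _ _
      _ ≤ _ := add_le_add (le_max_left _ _) (le_max_left _ _)
  · calc |p.2 - r.2| ≤ |p.2 - q.2| + |q.2 - r.2| := abs_sub_le _ _ _
      _ ≤ _ := add_le_add (le_max_right _ _) (le_max_right _ _)

lemma dd_add (p q v : ℤ × ℤ) : dd (p + v) (q + v) = dd p q := by
  simp [dd]

lemma conn_mono {x y : ℤ × ℤ → Bool} (h : ∀ p, x p = true → y p = true) {g : ℤ} {p q : ℤ × ℤ}
    (hc : Conn x g p q) : Conn y g p q := by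
  induction hc with
  | refl => exact Relation.ReflTransGen.refl
  | tail _ h2 ih => exact ih.tail ⟨h _ h2.1, h2.2⟩

/-- `XX` is hereditary -/
lemma hereditary {x y : ℤ × ℤ → Bool} (h : ∀ p, x p = true → y p = true) (hy : y ∈ XX) :
    x ∈ XX := fun k p q hp hc => hy k p q (h p hp) (conn_mono h hc)

lemma invariant_XX : Invariant XX := by
  intro x hx v k p q hp hc
  have h1 : Conn x (4 ^ (k + 1)) (p + v) (q + v) := by
    clear hp
    induction hc with
    | refl => exact Relation.ReflTransGen.refl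
    | tail _ h2 ih => exact ih.tail ⟨h2.1, by rw [dd_add]; exact h2.2⟩
  have := hx k (p + v) (q + v) hp h1
  rwa [dd_add] at this

lemma ev_coord (x : ℤ × ℤ → Bool) (c : ℤ × ℤ) : ∀ᶠ y in 𝓝 x, y c = x c := by
  have h : {y : ℤ × ℤ → Bool | y c = x c} ∈ 𝓝 x := by
    refine IsOpen.mem_nhds ?_ rfl
    exact (isOpen_discrete ({x c} : Set Bool)).preimage
      (continuous_apply (A := fun _ : ℤ × ℤ => Bool) c)
  exact h

lemma conn_eventually {x : ℤ × ℤ → Bool} {g : ℤ} {p q : ℤ × ℤ} (hc : Conn x g p q) :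
    ∀ᶠ y in 𝓝 x, Conn y g p q := by
  induction hc with
  | refl => exact Eventually.of_forall fun y => Relation.ReflTransGen.refl
  | tail h1 h2 ih =>
    rename_i b c
    filter_upwards [ih, ev_coord x c] with y h4 h5
    exact h4.tail ⟨by rw [h5]; exact h2.1, h2.2⟩

lemma isClosed_XX : IsClosed XX := by
  rw [← isOpen_compl_iff, isOpen_iff_eventually]
  intro x hx
  have hx' : ¬ ∀ (k : ℕ) (p q : ℤ × ℤ), x p = true → Conn x (4 ^ (k + 1)) p q →
    dd p q < (k + 1) * 4 ^ (k + 1) := hx
  simp only [not_forall] at hx'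
  obtain ⟨k, p, q, hp, hc, hd⟩ := hx'
  filter_upwards [conn_eventually hc, ev_coord x p] with y h4 h5 hy
  exact hd (hy k p q (by rw [h5]; exact hp) h4)

/-- the cells with `true` in an element other than zero have no translation symmetry -/
lemma aperiodic {x : ℤ × ℤ → Bool} (hx : x ∈ XX) (h0 : x ≠ fun _ => false) {v : ℤ × ℤ}
    (hv : v ≠ 0) : tr v x ≠ x := by
  intro hxv
  obtain ⟨p, hp⟩ : ∃ p, x p = true := by
    by_contra hc
    push Not at hc
    exact h0 (funext fun p => by simpa using hc p)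
  have h1 : ∀ j : ℕ, x (p + j • v) = true := by
    intro j
    induction j with
    | zero => simpa using hp
    | succ j ih =>
      have := congrFun hxv (p + j • v)
      simp only [tr] at this
      rw [succ_nsmul, ← add_assoc, this, ih]
  have hd0 : 0 < dd 0 v := by
    refine lt_of_le_of_ne (dd_nonneg _ _) fun h => hv ?_
    have h2 : |(0 : ℤ) - v.1| ≤ dd 0 v := le_max_left _ _
    have h3 : |(0 : ℤ) - v.2| ≤ dd 0 v := le_max_right _ _
    rw [← h] at h2 h3
    have h4 := abs_nonpos_iff.1 h2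
    have h5 := abs_nonpos_iff.1 h3
    ext
    · simp; omega
    · simp; omega
  obtain ⟨k, hk⟩ : ∃ k : ℕ, dd 0 v < 4 ^ (k + 1) := by
    refine ⟨(dd 0 v).toNat, ?_⟩
    have h2 : (dd 0 v).toNat < 4 ^ ((dd 0 v).toNat + 1) :=
      (Nat.lt_pow_self (by norm_num : 1 < 4)).trans (Nat.pow_lt_pow_right (by norm_num) (by omega))
    zify at h2
    rw [Int.toNat_of_nonneg hd0.le] at h2
    exact h2
  have h2 : ∀ j : ℕ, Conn x (4 ^ (k + 1)) p (p + j • v) := by
    intro j
    induction j with
    | zero =>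
      rw [zero_smul, add_zero]
      exact Relation.ReflTransGen.refl
    | succ j ih =>
      refine ih.tail ⟨h1 _, ?_⟩
      have : dd (p + j • v) (p + (j + 1) • v) = dd 0 v := by
        rw [succ_nsmul]
        have := dd_add 0 v (p + j • v)
        rw [zero_add] at this
        rw [← this]
        congr 1
        abel
      rw [this]
      exact hk
  have h3 : ∀ j : ℕ, dd p (p + j • v) = j * dd 0 v := by
    intro j
    have e1 : (p + j • v).1 = p.1 + j * v.1 := by simp
    have e2 : (p + j • v).2 = p.2 + j * v.2 := by simp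
    unfold dd
    rw [e1, e2, Prod.fst_zero, Prod.snd_zero, zero_sub, zero_sub, abs_neg, abs_neg,
      sub_add_cancel_left, sub_add_cancel_left, abs_neg, abs_neg, abs_mul, abs_mul, Nat.abs_cast,
      mul_max_of_nonneg _ _ (by positivity)]
  have h4 := hx k p _ hp (h2 ((k + 1) * 4 ^ (k + 1)))
  rw [h3] at h4
  push_cast at h4
  nlinarith [show (0 : ℤ) < (k + 1) * 4 ^ (k + 1) by positivity]

/-- single points -/
lemma single_mem (p : ℤ × ℤ) : (fun q => decide (q = p)) ∈ XX := by
  intro k a q ha hc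
  have h1 : a = p := by simpa using ha
  have h2 : q = p := by
    rcases Relation.ReflTransGen.cases_tail hc with h | ⟨c, _, h⟩
    · rw [h, h1]
    · simpa using h.1
  rw [h1, h2, dd_self]
  positivity

lemma infinite_XX : XX.Infinite := by
  refine Set.infinite_of_injective_forall_mem (f := fun p : ℤ × ℤ => fun q => decide (q = p)) ?_
    single_mem
  intro p p' h
  have := congrFun h p
  simpa using this

end Pool.Agent.H36Glue.Sparse
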