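import Pool.Agent.H36Glue.Sparse

/-!
# The entropy of the sparse subshift
-/

set_option autoImplicit false

namespace Pool.Agent.H36Glue.Sparse

open Filter Topology

/-- the closed neighbourhood of radius `r` -/
noncomputable def nb (r : ℤ) (U : Finset (ℤ × ℤ)) : Finset (ℤ × ℤ) :=
  U.biUnion fun u => Finset.Icc (u.1 - r) (u.1 + r) ×ˢ Finset.Icc (u.2 - r) (u.2 + r)

lemma mem_nb {r : ℤ} {U : Finset (ℤ × ℤ)} {p : ℤ × ℤ} : p ∈ nb r U ↔ ∃ u ∈ U, dd u p ≤ r := by
  simp only [nb, Finset.mem_biUnion, Finset.mem_product, Finset.mem_Icc, dd, max_le_iff, abs_le]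
  constructor
  · rintro ⟨u, hu, h⟩
    exact ⟨u, hu, by omega⟩
  · rintro ⟨u, hu, h⟩
    exact ⟨u, hu, by omega⟩

lemma subset_nb {r : ℤ} (hr : 0 ≤ r) (U : Finset (ℤ × ℤ)) : U ⊆ nb r U := fun u hu =>
  mem_nb.2 ⟨u, hu, by rw [dd_self]; exact hr⟩

lemma dd_shift (p : ℤ × ℤ) {i : ℤ} (hi : 0 ≤ i) : dd p (p + (i, 0)) = i := by
  simp [dd, abs_of_nonneg hi, hi]

/-- growth of neighbourhoods -/
lemma expand {x : ℤ × ℤ → Bool} (hx : x ∈ XX) {U : Finset (ℤ × ℤ)}
    (hU : ∀ u ∈ U, x u = true) (j : ℕ) :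
    ((j + 2) * 4 ^ (j + 2) + 2 * 4 ^ j + 3 * 4 ^ j) * (nb (4 ^ j) U).card ≤
      ((j + 2) * 4 ^ (j + 2) + 2 * 4 ^ j) * (nb (4 ^ (j + 1)) U).card := by
  classical
  set V := nb (4 ^ j) U with hV
  set E := V.filter (fun e => ∀ i : ℤ, 1 ≤ i → i ≤ 2 * (3 * 4 ^ j) → e + (i, 0) ∉ V) with hE
  set D : ℕ := (j + 2) * 4 ^ (j + 2) + 2 * 4 ^ j with hD
  have h4 : (0 : ℤ) < 4 ^ j := by positivity
  -- every point of `V` has a point of `E` to its right
  have hex : ∀ v ∈ V, ∃ e ∈ E, ∃ t : ℕ, t < D ∧ v = e - ((t : ℤ), 0) := by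
    intro v hv
    obtain ⟨u, hu, huv⟩ := mem_nb.1 hv
    let T := V.filter (fun e => e.2 = v.2 ∧ v.1 ≤ e.1 ∧ ∃ u' ∈ U, dd u' e ≤ 4 ^ j ∧
      Conn x (4 ^ (j + 1 + 1)) u u')
    have hT : T.Nonempty := ⟨v, Finset.mem_filter.2 ⟨hv, rfl, le_rfl, u, hu, huv,
      Relation.ReflTransGen.refl⟩⟩
    obtain ⟨e, he, hmax⟩ := T.exists_max_image (fun e => e.1) hT
    obtain ⟨heV, he2, he1, u', hu', hu'e, hconn⟩ := Finset.mem_filter.1 he
    have heE : e ∈ E := by
      refine Finset.mem_filter.2 ⟨heV, fun i hi1 hi2 hmem => ?_⟩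
      obtain ⟨u'', hu'', hd⟩ := mem_nb.1 hmem
      have h5 : dd u' u'' < 4 ^ (j + 1 + 1) := by
        have h6 := dd_triangle u' e u''
        have h7 := dd_triangle e (e + (i, 0)) u''
        rw [dd_shift e (by omega : (0 : ℤ) ≤ i)] at h7
        have hd' : dd (e + (i, 0)) u'' ≤ 4 ^ j := by rw [dd_comm]; exact hd
        have h8 : (4 : ℤ) ^ (j + 1 + 1) = 16 * 4 ^ j := by ring
        rw [h8]
        linarith
      have h9 : e + (i, 0) ∈ T := by
        refine Finset.mem_filter.2 ⟨hmem, ?_, ?_, u'', hu'', hd, hconn.tail ⟨hU _ hu'', h5⟩⟩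
        · simpa using he2
        · have : (e + (i, 0)).1 = e.1 + i := rfl
          rw [this]; omega
      have h10 := hmax _ h9
      have : (e + (i, 0)).1 = e.1 + i := rfl
      simp only [this] at h10
      omega
    refine ⟨e, heE, (e.1 - v.1).toNat, ?_, ?_⟩
    · have h5 := hx (j + 1) u u' (hU u hu) hconn
      have h6 := dd_triangle v u e
      have h7 := dd_triangle u u' e
      rw [dd_comm v u] at h6
      have h8 : e.1 - v.1 ≤ dd v e := by
        unfold dd
        refine le_max_of_le_left ?_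
        rw [abs_sub_comm]
        exact le_abs_self _
      have h9 : e.1 - v.1 < D := by
        rw [hD]
        push_cast at h5 ⊢
        have : ((j : ℤ) + 1 + 1) = j + 2 := by ring
        rw [this] at h5
        linarith
      zify
      rw [Int.toNat_of_nonneg (by omega)]
      exact h9
    · rw [Int.toNat_of_nonneg (by omega)]
      ext
      · simp
      · simp [he2]
  have hcard1 : V.card ≤ E.card * D := by
    have hsub : V ⊆ (E ×ˢ Finset.range D).image (fun et => et.1 - ((et.2 : ℤ), 0)) := by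
      intro v hv
      obtain ⟨e, he, t, ht, rfl⟩ := hex v hv
      exact Finset.mem_image.2 ⟨(e, t), Finset.mem_product.2 ⟨he, Finset.mem_range.2 ht⟩, rfl⟩
    calc V.card ≤ _ := Finset.card_le_card hsub
      _ ≤ (E ×ˢ Finset.range D).card := Finset.card_image_le
      _ = E.card * D := by rw [Finset.card_product, Finset.card_range]
  -- new points
  let S : Finset (ℤ × ℤ) := (E ×ˢ Finset.range (3 * 4 ^ j)).image
    (fun et => et.1 + ((et.2 : ℤ) + 1, 0))
  have hcardS : S.card = E.card * (3 * 4 ^ j) := by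
    rw [Finset.card_image_of_injOn, Finset.card_product, Finset.card_range]
    rintro ⟨e, t⟩ het ⟨e', t'⟩ het' h
    simp only [Finset.coe_product, Set.mem_prod, Finset.mem_coe, Finset.mem_range] at het het'
    obtain ⟨he, ht⟩ := het
    obtain ⟨he', ht'⟩ := het'
    obtain ⟨heV, heN⟩ := Finset.mem_filter.1 he
    obtain ⟨heV', heN'⟩ := Finset.mem_filter.1 he'
    simp only [Prod.ext_iff, Prod.fst_add, Prod.snd_add, add_zero] at h
    zify at ht ht'
    have key : t = t' := by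
      by_contra hne
      rcases lt_or_gt_of_ne hne with hlt | hlt
      · refine heN' ((t' : ℤ) - t) (by omega) (by omega) ?_
        have : e' + ((t' : ℤ) - t, 0) = e := by
          ext
          · simp only [Prod.fst_add]; omega
          · simp only [Prod.snd_add]; omega
        rw [this]; exact heV
      · refine heN ((t : ℤ) - t') (by omega) (by omega) ?_
        have : e + ((t : ℤ) - t', 0) = e' := by
          ext
          · simp only [Prod.fst_add]; omega
          · simp only [Prod.snd_add]; omega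
        rw [this]; exact heV'
    subst key
    have h1 : e = e' := by
      ext
      · omega
      · omega
    rw [h1]
  have hdisj : Disjoint V S := by
    rw [Finset.disjoint_left]
    intro p hp hpS
    obtain ⟨⟨e, t⟩, het, rfl⟩ := Finset.mem_image.1 hpS
    obtain ⟨he, ht⟩ := Finset.mem_product.1 het
    obtain ⟨heV, heN⟩ := Finset.mem_filter.1 he
    have ht' := Finset.mem_range.1 ht
    simp only at ht' hp heN
    zify at ht'
    exact heN ((t : ℤ) + 1) (by omega) (by omega) hp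
  have hsub : V ∪ S ⊆ nb (4 ^ (j + 1)) U := by
    intro p hp
    rcases Finset.mem_union.1 hp with hp | hp
    · obtain ⟨u, hu, hd⟩ := mem_nb.1 hp
      refine mem_nb.2 ⟨u, hu, hd.trans ?_⟩
      have : (4 : ℤ) ^ (j + 1) = 4 * 4 ^ j := by ring
      linarith
    · obtain ⟨⟨e, t⟩, het, rfl⟩ := Finset.mem_image.1 hp
      obtain ⟨he, ht⟩ := Finset.mem_product.1 het
      obtain ⟨heV, _⟩ := Finset.mem_filter.1 he
      have ht' := Finset.mem_range.1 ht
      simp only at ht' heV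
      zify at ht'
      obtain ⟨u, hu, hd⟩ := mem_nb.1 heV
      refine mem_nb.2 ⟨u, hu, ?_⟩
      have h6 := dd_triangle u e (e + ((t : ℤ) + 1, 0))
      rw [dd_shift e (by omega : (0 : ℤ) ≤ (t : ℤ) + 1)] at h6
      have : (4 : ℤ) ^ (j + 1) = 4 * 4 ^ j := by ring
      simp only
      linarith
  have hcard2 : V.card + E.card * (3 * 4 ^ j) ≤ (nb (4 ^ (j + 1)) U).card := by
    rw [← hcardS, ← Finset.card_union_of_disjoint hdisj]
    exact Finset.card_le_card hsub
  calc (D + 3 * 4 ^ j) * V.card = D * V.card + 3 * 4 ^ j * V.card := by ring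
    _ ≤ D * V.card + 3 * 4 ^ j * (E.card * D) := by gcongr
    _ = D * (V.card + E.card * (3 * 4 ^ j)) := by ring
    _ ≤ D * (nb (4 ^ (j + 1)) U).card := Nat.mul_le_mul_left _ hcard2

/-- the growth factor -/
noncomputable def fac : ℕ → ℝ
  | 0 => 1
  | (j + 1) => fac j * (1 + 1 / (12 * ((j : ℝ) + 1)))

lemma one_le_fac (k : ℕ) : 1 ≤ fac k := by
  induction k with
  | zero => simp [fac]
  | succ j ih =>
    rw [fac]
    have : (0 : ℝ) ≤ 1 / (12 * ((j : ℝ) + 1)) := by positivity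
    nlinarith

lemma fac_lower (k : ℕ) : 1 / 12 * ∑ i ∈ Finset.range k, (1 / ((i : ℝ) + 1)) ≤ fac k := by
  induction k with
  | zero => simp [fac]
  | succ j ih =>
    rw [fac, Finset.sum_range_succ]
    have h1 := one_le_fac j
    have h2 : (0 : ℝ) ≤ 1 / ((j : ℝ) + 1) := by positivity
    have h3 : 1 / (12 * ((j : ℝ) + 1)) = 1 / 12 * (1 / ((j : ℝ) + 1)) := by
      rw [one_div_mul_one_div]
    rw [h3]
    nlinarith

lemma tendsto_fac : Tendsto fac atTop atTop :=
  tendsto_atTop_mono fac_lower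
    (Real.tendsto_sum_range_one_div_nat_succ_atTop.const_mul_atTop (by norm_num))

lemma fac_mul_card {x : ℤ × ℤ → Bool} (hx : x ∈ XX) {U : Finset (ℤ × ℤ)}
    (hU : ∀ u ∈ U, x u = true) (k : ℕ) : fac k * U.card ≤ (nb (4 ^ k) U).card := by
  induction k with
  | zero =>
    simp only [fac, one_mul]
    exact_mod_cast Finset.card_le_card (subset_nb (by norm_num) U)
  | succ j ih =>
    have h1 := expand hx hU j
    have h2 : (((j : ℝ) + 2) * 4 ^ (j + 2) + 2 * 4 ^ j + 3 * 4 ^ j) * (nb (4 ^ j) U).card ≤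
      (((j : ℝ) + 2) * 4 ^ (j + 2) + 2 * 4 ^ j) * (nb (4 ^ (j + 1)) U).card := by
      exact_mod_cast h1
    set D : ℝ := ((j : ℝ) + 2) * 4 ^ (j + 2) + 2 * 4 ^ j with hD
    have hD0 : 0 < D := by positivity
    have h3 : 1 + 1 / (12 * ((j : ℝ) + 1)) ≤ (D + 3 * 4 ^ j) / D := by
      rw [add_div, div_self hD0.ne']
      refine add_le_add le_rfl ?_
      rw [div_le_div_iff₀ (by positivity) hD0, hD]
      have h4 : (0 : ℝ) < 4 ^ j := by positivity
      have h5 : (4 : ℝ) ^ (j + 2) = 16 * 4 ^ j := by ring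
      rw [h5]
      have h6 : (0 : ℝ) ≤ j := by positivity
      nlinarith
    have h7 : (D + 3 * 4 ^ j) / D * (nb (4 ^ j) U).card ≤ (nb (4 ^ (j + 1)) U).card := by
      rw [div_mul_eq_mul_div, div_le_iff₀ hD0]
      linarith
    have h8 : 0 ≤ fac j := by linarith [one_le_fac j]
    calc fac (j + 1) * U.card = (1 + 1 / (12 * ((j : ℝ) + 1))) * (fac j * U.card) := by
          rw [fac]; ring
      _ ≤ (D + 3 * 4 ^ j) / D * (nb (4 ^ j) U).card :=
          mul_le_mul h3 ih (mul_nonneg h8 (Nat.cast_nonneg _)) (by positivity)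
      _ ≤ _ := h7

/-- the number of ones in a box -/
lemma ones_le {x : ℤ × ℤ → Bool} (hx : x ∈ XX) (n k : ℕ) :
    fac k * ((Finset.univ.filter (fun i : Fin n × Fin n => pat n x i = true)).card : ℝ) ≤
      ((n : ℝ) + 2 * 4 ^ k) ^ 2 := by
  classical
  set S := Finset.univ.filter (fun i : Fin n × Fin n => pat n x i = true) with hS
  let f : Fin n × Fin n → ℤ × ℤ := fun i => ((i.1 : ℤ), (i.2 : ℤ))
  have hf : Function.Injective f := by
    rintro ⟨a, b⟩ ⟨c, d⟩ h
    simp only [f, Prod.mk.injEq, Nat.cast_inj] at h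
    ext
    · exact h.1
    · exact h.2
  have h1 := fac_mul_card hx (U := S.image f) (by
    intro u hu
    obtain ⟨i, hi, rfl⟩ := Finset.mem_image.1 hu
    exact (Finset.mem_filter.1 hi).2) k
  rw [Finset.card_image_of_injective _ hf] at h1
  refine h1.trans ?_
  have h2 : nb (4 ^ k) (S.image f) ⊆ Finset.Ico (-(4 : ℤ) ^ k) (n + 4 ^ k) ×ˢ
      Finset.Ico (-(4 : ℤ) ^ k) (n + 4 ^ k) := by
    intro p hp
    obtain ⟨u, hu, hd⟩ := mem_nb.1 hp
    obtain ⟨i, hi, rfl⟩ := Finset.mem_image.1 hu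
    simp only [dd, f, max_le_iff, abs_le] at hd
    have := i.1.2
    have := i.2.2
    simp only [Finset.mem_product, Finset.mem_Ico]
    omega
  have h3 := Finset.card_le_card h2
  rw [Finset.card_product, Int.card_Ico] at h3
  have h4 : (((n : ℤ) + 4 ^ k - -4 ^ k).toNat : ℝ) = n + 2 * 4 ^ k := by
    have : (n : ℤ) + 4 ^ k - -4 ^ k = ((n + 2 * 4 ^ k : ℕ) : ℤ) := by push_cast; ring
    rw [this, Int.toNat_natCast]
    push_cast; ring
  calc ((nb (4 ^ k) (S.image f)).card : ℝ) ≤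
        (((n : ℤ) + 4 ^ k - -4 ^ k).toNat * ((n : ℤ) + 4 ^ k - -4 ^ k).toNat : ℕ) := by
        exact_mod_cast h3
    _ = _ := by rw [Nat.cast_mul, h4]; ring

/-- counting patterns with few ones -/
lemma cnt_mul_pow_le {n M : ℕ} {t : ℝ} (ht : 0 < t) (ht1 : t ≤ 1)
    (h : ∀ x ∈ XX, (Finset.univ.filter (fun i : Fin n × Fin n => pat n x i = true)).card ≤ M) :
    cnt XX n * t ^ M ≤ (1 + t) ^ (n ^ 2) := by
  classical
  let F : (Fin n × Fin n → Bool) → Finset (Fin n × Fin n) := fun p =>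
    Finset.univ.filter (fun i => p i = true)
  have hF : Function.Injective F := by
    intro p q hpq
    funext i
    have := congrArg (fun s => i ∈ s) hpq
    simp only [F, Finset.mem_filter, Finset.mem_univ, true_and, eq_iff_iff] at this
    exact Bool.eq_iff_iff.2 this
  have hfin : (Lang XX n).Finite := Set.toFinite _
  have h1 : cnt XX n = (hfin.toFinset.image F).card := by
    rw [Finset.card_image_of_injective _ hF]
    exact Set.ncard_eq_toFinset_card _ hfin
  have h2 : ∀ S ∈ hfin.toFinset.image F, t ^ M ≤ t ^ S.card := by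
    intro S hS
    obtain ⟨p, hp, rfl⟩ := Finset.mem_image.1 hS
    obtain ⟨x, hx, rfl⟩ := hfin.mem_toFinset.1 hp
    exact pow_le_pow_of_le_one ht.le ht1 (h x hx)
  calc (cnt XX n : ℝ) * t ^ M = ∑ S ∈ hfin.toFinset.image F, t ^ M := by
        rw [Finset.sum_const, nsmul_eq_mul, h1]
    _ ≤ ∑ S ∈ hfin.toFinset.image F, t ^ S.card := Finset.sum_le_sum h2
    _ ≤ ∑ S ∈ (Finset.univ : Finset (Fin n × Fin n)).powerset, t ^ S.card :=
        Finset.sum_le_sum_of_subset_of_nonneg (fun S _ => Finset.mem_powerset.2 (Finset.subset_univ _))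
          (fun _ _ _ => by positivity)
    _ = (1 + t) ^ (n ^ 2) := by
        have := Finset.sum_pow_mul_eq_add_pow t 1 (Finset.univ : Finset (Fin n × Fin n))
        simp only [one_pow, mul_one] at this
        rw [this, Finset.card_univ, Fintype.card_prod, Fintype.card_fin, add_comm t 1, sq]

/-- **Zero entropy.** -/
theorem entropy_zero :
    Tendsto (fun n : ℕ => Real.log (cnt XX n) / (n : ℝ) ^ 2) atTop (𝓝 0) := by
  have hne : XX.Nonempty := infinite_XX.nonempty
  have hc1 : ∀ n, 1 ≤ cnt XX n := fun n =>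
    (Set.ncard_pos (Set.toFinite (Lang XX n))).2 (hne.image _)
  rw [Metric.tendsto_atTop]
  intro ε hε
  -- choice of the parameters
  set t : ℝ := min (ε / 4) (1 / 2) with ht
  have ht0 : 0 < t := by positivity
  have ht1 : t ≤ 1 / 2 := min_le_right _ _
  have htε : t ≤ ε / 4 := min_le_left _ _
  set L : ℝ := Real.log (1 / t) with hL
  have hL0 : 0 < L := Real.log_pos (by
    rw [lt_div_iff₀ ht0]; linarith)
  obtain ⟨k, hk⟩ := (tendsto_fac.eventually_ge_atTop (16 * L / ε)).exists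
  obtain ⟨N, hN⟩ : ∃ N : ℕ, 2 * 4 ^ k + 1 ≤ N := ⟨_, le_rfl⟩
  refine ⟨N, fun n hn => ?_⟩
  have hn1 : 2 * 4 ^ k + 1 ≤ n := hN.trans hn
  have hn2 : (2 * 4 ^ k : ℝ) ≤ n := by
    have : 2 * 4 ^ k ≤ n := by omega
    exact_mod_cast this
  have hn0 : (0 : ℝ) < n := by
    have : 0 < n := by omega
    exact_mod_cast this
  have hfk := one_le_fac k
  have hones : ∀ x ∈ XX,
      (Finset.univ.filter (fun i : Fin n × Fin n => pat n x i = true)).card ≤
        ⌊ε / (4 * L) * (n : ℝ) ^ 2⌋₊ := by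
    intro x hx
    apply Nat.le_floor
    have h1 := ones_le hx n k
    set c : ℝ := ((Finset.univ.filter (fun i : Fin n × Fin n => pat n x i = true)).card : ℝ)
    have h2 : ((n : ℝ) + 2 * 4 ^ k) ^ 2 ≤ 4 * (n : ℝ) ^ 2 := by
      calc ((n : ℝ) + 2 * 4 ^ k) ^ 2 ≤ (2 * (n : ℝ)) ^ 2 :=
            pow_le_pow_left₀ (by positivity) (by linarith) 2
        _ = 4 * (n : ℝ) ^ 2 := by ring
    have h3 : 16 * L / ε * c ≤ 4 * (n : ℝ) ^ 2 := by
      have : 0 ≤ c := by positivity
      nlinarith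
    rw [div_mul_eq_mul_div, div_le_iff₀ hε] at h3
    rw [div_mul_eq_mul_div, le_div_iff₀ (by positivity)]
    nlinarith
  have h1 := cnt_mul_pow_le (n := n) ht0 (by linarith) hones
  set M := ⌊ε / (4 * L) * (n : ℝ) ^ 2⌋₊ with hM
  have hMle : (M : ℝ) ≤ ε / (4 * L) * (n : ℝ) ^ 2 := Nat.floor_le (by positivity)
  have hcpos : (0 : ℝ) < cnt XX n := by exact_mod_cast hc1 n
  have h2 := Real.log_le_log (by positivity) h1
  rw [Real.log_mul hcpos.ne' (by positivity), Real.log_pow, Real.log_pow] at h2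
  have h3 : Real.log t = -L := by rw [hL, one_div, Real.log_inv, neg_neg]
  have h4 : Real.log (1 + t) ≤ t := by
    have := Real.log_le_sub_one_of_pos (show 0 < 1 + t by positivity)
    linarith
  rw [h3] at h2
  have h5 : (M : ℝ) * L ≤ ε / 4 * (n : ℝ) ^ 2 := by
    calc (M : ℝ) * L ≤ ε / (4 * L) * (n : ℝ) ^ 2 * L := by gcongr
      _ = ε / 4 * (n : ℝ) ^ 2 := by field_simp
  have h6 : (((n ^ 2 : ℕ) : ℝ)) * Real.log (1 + t) ≤ ε / 4 * (n : ℝ) ^ 2 := by
    push_cast
    nlinarith [sq_nonneg (n : ℝ)]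
  have h7 : Real.log (cnt XX n) ≤ ε / 2 * (n : ℝ) ^ 2 := by linarith
  have h8 : 0 ≤ Real.log (cnt XX n) := Real.log_nonneg (by exact_mod_cast hc1 n)
  rw [Real.dist_eq, sub_zero, abs_of_nonneg (by positivity), div_lt_iff₀ (by positivity)]
  have : 0 < ε * (n : ℝ) ^ 2 := by positivity
  linarith

end Pool.Agent.H36Glue.Sparse
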