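import Pool.Agent.H36Glue.Sparse

/-!
# The block gluing function of the sparse subshift
-/

set_option autoImplicit false

namespace Pool.Agent.H36Glue.Sparse

open Filter Topology

/-- the box `{0, …, n - 1}²` -/
def InBox (n : ℕ) (p : ℤ × ℤ) : Prop := 0 ≤ p.1 ∧ p.1 < n ∧ 0 ≤ p.2 ∧ p.2 < n

lemma dd_box {n : ℕ} {p q : ℤ × ℤ} (hp : InBox n p) (hq : InBox n q) : dd p q < n := by
  obtain ⟨a1, a2, a3, a4⟩ := hp
  obtain ⟨b1, b2, b3, b4⟩ := hq
  refine max_lt ?_ ?_ <;> rw [abs_lt] <;> constructor <;> omega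

open Classical in
/-- the configuration that shows `x` in the box and `y` in the box translated by `w` -/
noncomputable def gl (n : ℕ) (w : ℤ × ℤ) (x y : ℤ × ℤ → Bool) : ℤ × ℤ → Bool := fun p =>
  decide ((InBox n p ∧ x p = true) ∨ (InBox n (p - w) ∧ y (p - w) = true))

lemma gl_true {n : ℕ} {w : ℤ × ℤ} {x y : ℤ × ℤ → Bool} {p : ℤ × ℤ} :
    gl n w x y p = true ↔ (InBox n p ∧ x p = true) ∨ (InBox n (p - w) ∧ y (p - w) = true) := by
  simp [gl]

lemma conn_end {x : ℤ × ℤ → Bool} {g : ℤ} {p q : ℤ × ℤ} (hp : x p = true) (hc : Conn x g p q) :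
    x q = true := by
  rcases Relation.ReflTransGen.cases_tail hc with h | ⟨c, _, h⟩
  · rw [h]; exact hp
  · exact h.1

lemma gl_mem {n k' : ℕ} {w : ℤ × ℤ} {x y : ℤ × ℤ → Bool} (hx : x ∈ XX) (hy : y ∈ XX)
    (hsep : ∀ a b, InBox n a → InBox n b → (k' : ℤ) + 1 ≤ dd a (b + w) ∧
      dd a (b + w) < 2 * n + k')
    (hk : ∀ k : ℕ, (k' : ℤ) + 1 < 4 ^ (k + 1) → 2 * (n : ℤ) + k' ≤ (k + 1) * 4 ^ (k + 1)) :
    gl n w x y ∈ XX := by
  intro k p q hp hc
  have hq := conn_end hp hc
  rw [gl_true] at hp hq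
  by_cases hg : (k' : ℤ) + 1 < 4 ^ (k + 1)
  · have h1 := hk k hg
    have hn : (0 : ℤ) ≤ n := by positivity
    have key : dd p q < 2 * n + k' := by
      rcases hp with ⟨hp1, _⟩ | ⟨hp1, _⟩ <;> rcases hq with ⟨hq1, _⟩ | ⟨hq1, _⟩
      · have := dd_box hp1 hq1; omega
      · have := (hsep p (q - w) hp1 hq1).2
        rwa [sub_add_cancel] at this
      · have := (hsep q (p - w) hq1 hp1).2
        rw [sub_add_cancel] at this
        rwa [dd_comm]
      · have := dd_box hp1 hq1
        have h2 := dd_add (p - w) (q - w) w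
        rw [sub_add_cancel, sub_add_cancel] at h2
        omega
    omega
  · push Not at hg
    rcases hp with hp | hp
    · have h1 : InBox n q ∧ Conn x (4 ^ (k + 1)) p q := by
        clear hq
        induction hc with
        | refl => exact ⟨hp.1, Relation.ReflTransGen.refl⟩
        | tail _ h2 ih =>
          rename_i b c _
          obtain ⟨h3, h4⟩ := ih
          rcases gl_true.1 h2.1 with h5 | h5
          · exact ⟨h5.1, h4.tail ⟨h5.2, h2.2⟩⟩
          · exfalso
            have := (hsep b (c - w) h3 h5.1).1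
            rw [sub_add_cancel] at this
            have := h2.2
            omega
      exact hx k p q hp.2 h1.2
    · have h1 : InBox n (q - w) ∧ Conn y (4 ^ (k + 1)) (p - w) (q - w) := by
        clear hq
        induction hc with
        | refl => exact ⟨hp.1, Relation.ReflTransGen.refl⟩
        | tail _ h2 ih =>
          rename_i b c _
          obtain ⟨h3, h4⟩ := ih
          rcases gl_true.1 h2.1 with h5 | h5
          · exfalso
            have := (hsep c (b - w) h5.1 h3).1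
            rw [sub_add_cancel, dd_comm] at this
            have := h2.2
            omega
          · refine ⟨h5.1, h4.tail ⟨h5.2, ?_⟩⟩
            have h6 := dd_add (b - w) (c - w) w
            rw [sub_add_cancel, sub_add_cancel] at h6
            rw [← h6]
            exact h2.2
      have h2 := hy k (p - w) (q - w) hp.2 h1.2
      have h6 := dd_add (p - w) (q - w) w
      rw [sub_add_cancel, sub_add_cancel] at h6
      rwa [h6]

lemma gl_pat {n k' : ℕ} {w : ℤ × ℤ} {x y : ℤ × ℤ → Bool}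
    (hsep : ∀ a b, InBox n a → InBox n b → (k' : ℤ) + 1 ≤ dd a (b + w) ∧
      dd a (b + w) < 2 * n + k') :
    pat n (gl n w x y) = pat n x ∧ pat n (tr w (gl n w x y)) = pat n y := by
  constructor
  · rw [pat_eq_iff]
    intro i j hi hi' hj hj'
    have hb : InBox n (i, j) := ⟨hi, hi', hj, hj'⟩
    rw [Bool.eq_iff_iff, gl_true]
    constructor
    · rintro (h | h)
      · exact h.2
      · exfalso
        have := (hsep (i, j) ((i, j) - w) hb h.1).1
        rw [sub_add_cancel, dd_self] at this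
        omega
    · exact fun h => Or.inl ⟨hb, h⟩
  · rw [pat_eq_iff]
    intro i j hi hi' hj hj'
    have hb : InBox n (i, j) := ⟨hi, hi', hj, hj'⟩
    unfold tr
    rw [Bool.eq_iff_iff, gl_true, add_sub_cancel_right]
    constructor
    · rintro (h | h)
      · exfalso
        have := (hsep ((i, j) + w) (i, j) h.1 hb).1
        rw [dd_self] at this
        omega
      · exact h.2
    · exact fun h => Or.inr ⟨hb, h⟩

lemma glues_XX {n k' : ℕ}
    (hk : ∀ k : ℕ, (k' : ℤ) + 1 < 4 ^ (k + 1) → 2 * (n : ℤ) + k' ≤ (k + 1) * 4 ^ (k + 1)) :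
    GluesH XX n k' ∧ GluesV XX n k' := by
  constructor
  · rintro _ ⟨x, hx, rfl⟩ _ ⟨y, hy, rfl⟩
    have hsep : ∀ a b, InBox n a → InBox n b →
        (k' : ℤ) + 1 ≤ dd a (b + (((n + k' : ℕ) : ℤ), 0)) ∧
        dd a (b + (((n + k' : ℕ) : ℤ), 0)) < 2 * n + k' := by
      rintro ⟨a1, a2⟩ ⟨b1, b2⟩ ⟨h1, h2, h3, h4⟩ ⟨h5, h6, h7, h8⟩
      simp only at h1 h2 h3 h4 h5 h6 h7 h8
      simp only [dd, Prod.mk_add_mk, Nat.cast_add]
      constructor
      · refine le_max_of_le_left ?_
        rw [abs_sub_comm, le_abs]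
        left; omega
      · refine max_lt ?_ ?_ <;> rw [abs_lt] <;> constructor <;> omega
    exact ⟨_, gl_mem hx hy hsep hk, gl_pat hsep⟩
  · rintro _ ⟨x, hx, rfl⟩ _ ⟨y, hy, rfl⟩
    have hsep : ∀ a b, InBox n a → InBox n b →
        (k' : ℤ) + 1 ≤ dd a (b + (0, ((n + k' : ℕ) : ℤ))) ∧
        dd a (b + (0, ((n + k' : ℕ) : ℤ))) < 2 * n + k' := by
      rintro ⟨a1, a2⟩ ⟨b1, b2⟩ ⟨h1, h2, h3, h4⟩ ⟨h5, h6, h7, h8⟩
      simp only at h1 h2 h3 h4 h5 h6 h7 h8
      simp only [dd, Prod.mk_add_mk, Nat.cast_add]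
      constructor
      · refine le_max_of_le_right ?_
        rw [abs_sub_comm, le_abs]
        left; omega
      · refine max_lt ?_ ?_ <;> rw [abs_lt] <;> constructor <;> omega
    exact ⟨_, gl_mem hx hy hsep hk, gl_pat hsep⟩

/-- arithmetic of the gluing bound -/
lemma arith {n k' K : ℕ} (hn : 64 ≤ n) (hk' : 8 * n ≤ (Nat.log 4 n + 1) * k')
    (hK : k' + 2 ≤ 4 ^ K) : 2 * n + k' ≤ K * 4 ^ K := by
  set m := Nat.log 4 n with hm
  have hm3 : 3 ≤ m := Nat.le_log_of_pow_le (by norm_num) (by simpa using hn)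
  by_cases h : m + 1 ≤ 2 * K
  · have h1 : (m + 1) * (k' + 2) ≤ 2 * K * 4 ^ K := Nat.mul_le_mul h hK
    have h2 : 4 * (k' + 2) ≤ (m + 1) * (k' + 2) := Nat.mul_le_mul_right _ (by omega)
    have h3 : (m + 1) * (k' + 2) = (m + 1) * k' + 2 * (m + 1) := by ring
    have h4 : 2 * K * 4 ^ K = 2 * (K * 4 ^ K) := by ring
    omega
  · exfalso
    have h1 : 2 * K ≤ m := by omega
    have h2 : 4 ^ K ≤ 2 ^ m := by
      calc 4 ^ K = 2 ^ (2 * K) := by rw [pow_mul]; norm_num
        _ ≤ 2 ^ m := Nat.pow_le_pow_right (by norm_num) h1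
    have h3 : 4 ^ m ≤ n := Nat.pow_log_le_self 4 (by omega)
    have h4 : m + 1 ≤ 2 ^ m := Nat.lt_two_pow_self
    have h5 : (m + 1) * k' ≤ 2 ^ m * 2 ^ m := Nat.mul_le_mul h4 (by omega)
    have h6 : 2 ^ m * 2 ^ m = 4 ^ m := by rw [← mul_pow]; norm_num
    have h7 : 0 < 4 ^ m := by positivity
    omega

lemma BLe_XX : ∃ C : ℝ, ∀ᶠ n : ℕ in atTop, BLe XX n (C * (n / Real.log n)) := by
  refine ⟨8 * Real.log 4 + 1, ?_⟩
  filter_upwards [eventually_ge_atTop 64] with n hn
  set m := Nat.log 4 n with hm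
  refine ⟨8 * n / (m + 1) + 1, ?_, ?_⟩
  · refine le_of_glues fun k' hk' => glues_XX fun k hk => ?_
    have h1 : 8 * n ≤ (m + 1) * k' := by
      have := Nat.lt_mul_div_succ (8 * n) (show 0 < m + 1 by omega)
      calc 8 * n ≤ (m + 1) * (8 * n / (m + 1) + 1) := this.le
        _ ≤ (m + 1) * k' := Nat.mul_le_mul_left _ hk'
    have h2 : k' + 2 ≤ 4 ^ (k + 1) := by
      zify; omega
    have h3 := arith hn h1 h2
    zify at h3
    exact h3
  · have hn0 : (0 : ℝ) < n := by
      have : 0 < n := by omega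
      exact_mod_cast this
    have hlog : 0 < Real.log n := Real.log_pos (by
      have : 1 < n := by omega
      exact_mod_cast this)
    have hl4 : 0 < Real.log 4 := Real.log_pos (by norm_num)
    have h1 : Real.log n ≤ (m + 1) * Real.log 4 := by
      have h2 : n ≤ 4 ^ (m + 1) := (Nat.lt_pow_succ_log_self (by norm_num) n).le
      have h3 : (n : ℝ) ≤ 4 ^ (m + 1) := by exact_mod_cast h2
      have := Real.log_le_log hn0 h3
      rw [Real.log_pow] at this
      exact_mod_cast this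
    have h2 : ((8 * n / (m + 1) : ℕ) : ℝ) ≤ 8 * n / (m + 1) := by
      have := @Nat.cast_div_le ℝ _ _ _ (8 * n) (m + 1)
      push_cast at this
      exact this
    have h3 : (8 : ℝ) * n / (m + 1) ≤ 8 * Real.log 4 * (n / Real.log n) := by
      rw [div_le_iff₀ (by positivity)]
      have h4 : 8 * Real.log 4 * (n / Real.log n) * (m + 1) =
          8 * n * (((m + 1) * Real.log 4) / Real.log n) := by ring
      rw [h4]
      have h5 : 1 ≤ ((m + 1) * Real.log 4) / Real.log n := by
        rw [le_div_iff₀ hlog]; linarith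
      nlinarith
    have h4 : (1 : ℝ) ≤ n / Real.log n := by
      rw [le_div_iff₀ hlog, one_mul]
      exact (Real.log_le_sub_one_of_pos hn0).trans (by linarith)
    push_cast
    linarith

end Pool.Agent.H36Glue.Sparse
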